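import Mathlib

set_option autoImplicit false

namespace Pool.Agent.Lib.MP_8ce656_nt

open Polynomial

/-- Irreducible factor vanishing at a given real number, with controlled coefficients. -/
theorem exists_factor (P : ℤ[X]) (hP : P ≠ 0) (n : ℕ) (hn : P.natDegree ≤ n) (α : ℝ)
    (hα : aeval α P = 0) (K : ℝ) (hK : ∀ i, |(P.coeff i : ℝ)| ≤ K) :
    ∃ F : ℤ[X], Irreducible F ∧ F.natDegree ≤ n ∧ aeval α F = 0 ∧
      ∀ i, |(F.coeff i : ℝ)| ≤ (2 : ℝ) ^ n * (n + 1) * K := by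
  obtain ⟨f, hf, hfP⟩ := UniqueFactorizationMonoid.exists_prime_factors P hP
  have h1 : aeval α f.prod = 0 := by
    obtain ⟨u, hu⟩ := hfP.symm
    rw [← hu, map_mul, hα, zero_mul]
  rw [map_multiset_prod] at h1
  rw [Multiset.prod_eq_zero_iff] at h1
  obtain ⟨F, hF, hFα⟩ := Multiset.mem_map.1 h1
  have hFirr : Irreducible F := (hf F hF).irreducible
  have hdvd : F ∣ P := (Multiset.dvd_prod hF).trans hfP.dvd
  obtain ⟨G, hG⟩ := hdvd
  have hF0 : F ≠ 0 := hFirr.ne_zero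
  have hG0 : G ≠ 0 := by
    rintro rfl
    exact hP (by rw [hG, mul_zero])
  have hdeg : F.natDegree ≤ n := by
    have : P.natDegree = F.natDegree + G.natDegree := by
      rw [hG, natDegree_mul hF0 hG0]
    omega
  refine ⟨F, hFirr, hdeg, hFα, fun i => ?_⟩
  have hK0 : 0 ≤ K := le_trans (abs_nonneg _) (hK 0)
  have key := norm_coeff_le_choose_mul_mahlerMeasure_of_one_le_mahlerMeasure i
    (F.map (Int.castRingHom ℂ)) (G.map (Int.castRingHom ℂ))
    (one_le_mahlerMeasure_of_ne_zero hG0)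
  have h2 : ‖(F.map (Int.castRingHom ℂ)).coeff i‖ = |(F.coeff i : ℝ)| := by
    simp [coeff_map]
  rw [h2, ← Polynomial.map_mul, ← hG] at key
  refine key.trans ?_
  have h3 : ((F.map (Int.castRingHom ℂ)).natDegree.choose i : ℝ) ≤ 2 ^ n := by
    have h4 : (F.map (Int.castRingHom ℂ)).natDegree ≤ n :=
      natDegree_map_le.trans hdeg
    have h5 : (F.map (Int.castRingHom ℂ)).natDegree.choose i ≤ 2 ^ n :=
      (Nat.choose_le_two_pow _ _).trans (Nat.pow_le_pow_right (by norm_num) h4)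
    exact_mod_cast h5
  have h6 : (P.map (Int.castRingHom ℂ)).mahlerMeasure ≤ (n + 1) * K := by
    refine (mahlerMeasure_le_sum_norm_coeff _).trans ?_
    rw [Polynomial.sum_def]
    refine (Finset.sum_le_sum (g := fun _ => K) ?_).trans ?_
    · intro j _
      have : ‖(P.map (Int.castRingHom ℂ)).coeff j‖ = |(P.coeff j : ℝ)| := by
        simp [coeff_map]
      rw [this]
      exact hK j
    · rw [Finset.sum_const, nsmul_eq_mul]
      apply mul_le_mul_of_nonneg_right _ hK0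
      have h7 : (P.map (Int.castRingHom ℂ)).support.card ≤ n + 1 := by
        refine (Polynomial.card_supp_le_succ_natDegree _).trans ?_
        have := natDegree_map_le (f := Int.castRingHom ℂ) (p := P)
        omega
      exact_mod_cast h7
  calc ((F.map (Int.castRingHom ℂ)).natDegree.choose i : ℝ) *
        (P.map (Int.castRingHom ℂ)).mahlerMeasure
      ≤ 2 ^ n * ((n + 1) * K) := by
        apply mul_le_mul h3 h6 (mahlerMeasure_nonneg _) (by positivity)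
    _ = 2 ^ n * (n + 1) * K := by ring

/-- Size of a polynomial on a bounded interval. -/
theorem abs_eval_le (g : ℝ[X]) (n : ℕ) (hn : g.natDegree ≤ n) (K A : ℝ) (hA : 1 ≤ A)
    (hK : ∀ i, |g.coeff i| ≤ K) (x : ℝ) (hx : |x| ≤ A) :
    |g.eval x| ≤ (n + 1) * K * A ^ n := by
  have hK0 : 0 ≤ K := le_trans (abs_nonneg _) (hK 0)
  rw [eval_eq_sum_range' (Nat.lt_succ_of_le hn)]
  refine (Finset.abs_sum_le_sum_abs _ _).trans ?_
  calc ∑ i ∈ Finset.range n.succ, |g.coeff i * x ^ i|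
      ≤ ∑ i ∈ Finset.range n.succ, K * A ^ n := by
        apply Finset.sum_le_sum
        intro i hi
        rw [abs_mul, abs_pow]
        apply mul_le_mul (hK i) _ (by positivity) hK0
        calc |x| ^ i ≤ A ^ i := pow_le_pow_left₀ (abs_nonneg _) hx i
          _ ≤ A ^ n := pow_le_pow_right₀ hA (by simpa [Nat.lt_succ_iff] using hi)
    _ = (n + 1) * K * A ^ n := by
        rw [Finset.sum_const, Finset.card_range, nsmul_eq_mul]
        push_cast
        ring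

/-- Coefficients of the derivative. -/
theorem abs_coeff_derivative_le (g : ℝ[X]) (n : ℕ) (hn : g.natDegree ≤ n) (K : ℝ)
    (hK : ∀ i, |g.coeff i| ≤ K) (i : ℕ) : |(derivative g).coeff i| ≤ n * K := by
  have hK0 : 0 ≤ K := le_trans (abs_nonneg _) (hK 0)
  rw [coeff_derivative, abs_mul]
  by_cases hi : i + 1 ≤ n
  · have h1 : |((i : ℝ) + 1)| ≤ n := by
      rw [abs_of_nonneg (by positivity)]
      exact_mod_cast hi
    calc |g.coeff (i + 1)| * |(i : ℝ) + 1| ≤ K * n := by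
          apply mul_le_mul (hK _) h1 (abs_nonneg _) hK0
      _ = n * K := by ring
  · have : g.coeff (i + 1) = 0 := coeff_eq_zero_of_natDegree_lt (by omega)
    rw [this, abs_zero, zero_mul]
    positivity

/-- Lipschitz bound for a polynomial on a bounded interval. -/
theorem abs_eval_sub_le (g : ℝ[X]) (n : ℕ) (hn : g.natDegree ≤ n) (K A : ℝ) (hA : 1 ≤ A)
    (hK : ∀ i, |g.coeff i| ≤ K) (x y : ℝ) (hx : |x| ≤ A) (hy : |y| ≤ A) :
    |g.eval x - g.eval y| ≤ (n + 1) * (n * K) * A ^ n * |x - y| := by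
  have hconv : Convex ℝ (Set.Icc (-A) A) := convex_Icc _ _
  have hd : ∀ z ∈ Set.Icc (-A) A, HasDerivWithinAt (fun t => g.eval t) ((derivative g).eval z)
      (Set.Icc (-A) A) z := fun z _ => (g.hasDerivAt z).hasDerivWithinAt
  have hb : ∀ z ∈ Set.Icc (-A) A, ‖(derivative g).eval z‖ ≤ (n + 1) * (n * K) * A ^ n := by
    intro z hz
    rw [Real.norm_eq_abs]
    apply abs_eval_le _ n _ (n * K) A hA (abs_coeff_derivative_le g n hn K hK) z (abs_le.2 hz)
    exact (natDegree_derivative_le g).trans (by omega)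
  have := hconv.norm_image_sub_le_of_norm_hasDerivWithin_le hd hb (abs_le.1 hy) (abs_le.1 hx)
  simpa [Real.norm_eq_abs] using this


/-- A real polynomial with large derivative at `ζ` and tiny value has a real root near `ζ`. -/
theorem exists_root (g : ℝ[X]) (n : ℕ) (hn : g.natDegree ≤ n) (K A : ℝ) (hA : 1 ≤ A)
    (hK : ∀ i, |g.coeff i| ≤ K) (ζ : ℝ) (hζ : |ζ| + 1 ≤ A) (d r : ℝ) (hd : 0 < d)
    (hder : d ≤ |(derivative g).eval ζ|) (hr : 2 * |g.eval ζ| ≤ d * r) (hr1 : r ≤ 1)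
    (hr2 : (n + 1) * (n * (n * K)) * A ^ n * r ≤ d / 2) :
    ∃ β : ℝ, g.eval β = 0 ∧ |β - ζ| ≤ r := by
  have hK0 : 0 ≤ K := le_trans (abs_nonneg _) (hK 0)
  have hr0 : 0 ≤ r := by
    have h1 : 0 ≤ d * r := le_trans (by positivity) hr
    exact nonneg_of_mul_nonneg_right h1 hd
  have hζA : |ζ| ≤ A := by linarith [abs_nonneg ζ]
  -- derivative bound near ζ
  have hclose : ∀ t ∈ Set.Icc (ζ - r) (ζ + r),
      |(derivative g).eval t - (derivative g).eval ζ| ≤ d / 2 := by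
    intro t ht
    have ht1 : |t - ζ| ≤ r := by rw [abs_le]; constructor <;> linarith [ht.1, ht.2]
    have htA : |t| ≤ A := by
      calc |t| = |ζ + (t - ζ)| := by ring_nf
        _ ≤ |ζ| + |t - ζ| := abs_add_le _ _
        _ ≤ A := by linarith
    have h1 := abs_eval_sub_le (derivative g) n ((natDegree_derivative_le g).trans (by omega))
      (n * K) A hA (abs_coeff_derivative_le g n hn K hK) t ζ htA hζA
    refine h1.trans (le_trans ?_ hr2)
    apply mul_le_mul_of_nonneg_left ht1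
    positivity
  -- wlog the derivative at ζ is positive
  have key : ∀ g : ℝ[X], d ≤ (derivative g).eval ζ → 2 * |g.eval ζ| ≤ d * r →
      (∀ t ∈ Set.Icc (ζ - r) (ζ + r), |(derivative g).eval t - (derivative g).eval ζ| ≤ d / 2) →
      ∃ β : ℝ, g.eval β = 0 ∧ |β - ζ| ≤ r := by
    intro g hder hr hclose
    have hpos : ∀ t ∈ Set.Icc (ζ - r) (ζ + r), d / 2 ≤ (derivative g).eval t := by
      intro t ht
      have := (abs_le.1 (hclose t ht)).1
      linarith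
    have hcont : ContinuousOn (fun t => g.eval t) (Set.Icc (ζ - r) (ζ + r)) :=
      g.continuous.continuousOn
    have hmv : ∀ x ∈ Set.Icc (ζ - r) (ζ + r), ∀ y ∈ Set.Icc (ζ - r) (ζ + r), x ≤ y →
        d / 2 * (y - x) ≤ g.eval y - g.eval x := by
      intro x hx y hy hxy
      refine (convex_Icc (ζ - r) (ζ + r)).mul_sub_le_image_sub_of_le_deriv hcont
        (g.differentiable.differentiableOn) ?_ x hx y hy hxy
      intro t ht
      rw [Polynomial.deriv]
      exact hpos t (interior_subset ht)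
    have hζmem : ζ ∈ Set.Icc (ζ - r) (ζ + r) := ⟨by linarith, by linarith⟩
    have h1 := hmv (ζ - r) ⟨le_refl _, by linarith⟩ ζ hζmem (by linarith)
    have h2 := hmv ζ hζmem (ζ + r) ⟨by linarith, le_refl _⟩ (by linarith)
    have h3 := abs_le.1 (le_refl |g.eval ζ|)
    have h4 : g.eval (ζ - r) ≤ 0 := by
      have : d / 2 * (ζ - (ζ - r)) = d * r / 2 := by ring
      rw [this] at h1
      linarith [h3.2]
    have h5 : 0 ≤ g.eval (ζ + r) := by
      have : d / 2 * (ζ + r - ζ) = d * r / 2 := by ring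
      rw [this] at h2
      linarith [h3.1]
    have h6 := intermediate_value_Icc (show ζ - r ≤ ζ + r by linarith) hcont
    obtain ⟨β, hβ, hβ0⟩ := h6 ⟨h4, h5⟩
    refine ⟨β, hβ0, ?_⟩
    rw [abs_le]
    constructor <;> linarith [hβ.1, hβ.2]
  rcases le_abs.1 hder with h | h
  · exact key g h hr hclose
  · have h1 := key (-g) (by simpa using h) (by simpa using hr) (by
      intro t ht
      have := hclose t ht
      rw [derivative_neg, eval_neg, eval_neg]
      rw [show -(derivative g).eval t - -(derivative g).eval ζ =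
        -((derivative g).eval t - (derivative g).eval ζ) by ring, abs_neg]
      exact this)
    obtain ⟨β, hβ, hβ1⟩ := h1
    exact ⟨β, by simpa using hβ, hβ1⟩

/-- Coefficients of a product with a linear polynomial. -/
theorem abs_coeff_mul_le (P Q : ℤ[X]) (k : ℕ) (hk : Q.natDegree ≤ k) (K L : ℝ)
    (hK : ∀ i, |(P.coeff i : ℝ)| ≤ K) (hL : ∀ i, |(Q.coeff i : ℝ)| ≤ L) (i : ℕ) :
    |((P * Q).coeff i : ℝ)| ≤ (k + 1) * (K * L) := by
  have hK0 : 0 ≤ K := le_trans (abs_nonneg _) (hK 0)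
  have hL0 : 0 ≤ L := le_trans (abs_nonneg _) (hL 0)
  rw [mul_comm P Q, coeff_mul]
  push_cast
  refine (Finset.abs_sum_le_sum_abs _ _).trans ?_
  rw [Finset.Nat.sum_antidiagonal_eq_sum_range_succ_mk]
  have h1 : ∀ j ∈ Finset.range i.succ, j ∉ Finset.range (k + 1) →
      |(Q.coeff j : ℝ) * (P.coeff (i - j) : ℝ)| = 0 := by
    intro j _ hj
    have : Q.coeff j = 0 := coeff_eq_zero_of_natDegree_lt (by
      simp only [Finset.mem_range, not_lt] at hj
      omega)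
    rw [this]
    simp
  calc ∑ j ∈ Finset.range i.succ, |(Q.coeff j : ℝ) * (P.coeff (i - j) : ℝ)|
      ≤ ∑ j ∈ Finset.range (k + 1), |(Q.coeff j : ℝ) * (P.coeff (i - j) : ℝ)| := by
        rw [← Finset.sum_filter_add_sum_filter_not (Finset.range i.succ)
          (fun j => j ∈ Finset.range (k + 1))]
        have h2 : ∑ j ∈ Finset.range i.succ with ¬ j ∈ Finset.range (k + 1),
            |(Q.coeff j : ℝ) * (P.coeff (i - j) : ℝ)| = 0 := by
          apply Finset.sum_eq_zero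
          intro j hj
          rw [Finset.mem_filter] at hj
          exact h1 j hj.1 hj.2
        rw [h2, add_zero]
        apply Finset.sum_le_sum_of_subset_of_nonneg
        · intro j hj
          exact (Finset.mem_filter.1 hj).2
        · intros
          positivity
    _ ≤ ∑ j ∈ Finset.range (k + 1), L * K := by
        apply Finset.sum_le_sum
        intro j _
        rw [abs_mul]
        exact mul_le_mul (hL j) (hK _) (abs_nonneg _) hL0
    _ = (k + 1) * (K * L) := by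
        rw [Finset.sum_const, Finset.card_range, nsmul_eq_mul]
        push_cast
        ring

/-- A linear form as a polynomial: degree, value and coefficients. -/
theorem lin_natDegree (q p : ℤ) : (C q * X - C p : ℤ[X]).natDegree ≤ 1 := by
  compute_degree

theorem lin_aeval (q p : ℤ) (ζ : ℝ) : aeval ζ (C q * X - C p : ℤ[X]) = (q : ℝ) * ζ - p := by
  rw [map_sub, map_mul, aeval_C, aeval_C, aeval_X]
  simp

theorem lin_coeff (q p : ℤ) (h : ℝ) (hq : |(q : ℝ)| ≤ h) (hp : |(p : ℝ)| ≤ h) (j : ℕ) :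
    |((C q * X - C p : ℤ[X]).coeff j : ℝ)| ≤ h := by
  have h0 : 0 ≤ h := le_trans (abs_nonneg _) hq
  rcases j with _ | _ | j
  · rw [coeff_sub, coeff_C_mul, coeff_X_zero, coeff_C_zero]
    simpa using hp
  · rw [zero_add, coeff_sub, coeff_C_mul, coeff_X_one, coeff_C]
    simpa using hq
  · rw [coeff_eq_zero_of_natDegree_lt (lt_of_le_of_lt (lin_natDegree q p) (by omega))]
    simpa using h0

theorem aeval_C_int (a : ℤ) (ζ : ℝ) : aeval ζ (C a : ℤ[X]) = (a : ℝ) := by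
  rw [aeval_C]; simp

/-- Greedy expansion in powers of a linear form. -/
theorem density (ζ : ℝ) (q p : ℤ) (h V : ℝ) (hh : 1 ≤ h) (hq : |(q : ℝ)| ≤ h)
    (hp : |(p : ℝ)| ≤ h)
    (hθ0 : (q : ℝ) * ζ - p ≠ 0) (hV : 1 / |(q : ℝ) * ζ - p| + 1 ≤ V) (m : ℕ) :
    ∀ y : ℝ, |y| ≤ 1 → ∃ R : ℤ[X], R.natDegree ≤ m ∧
      |aeval ζ R - y| ≤ |(q : ℝ) * ζ - p| ^ m ∧
      ∀ i, |(R.coeff i : ℝ)| ≤ m * (2 * h) ^ m * V := by
  have hV0 : 0 ≤ V := le_trans (by positivity) hV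
  induction m with
  | zero =>
    intro y hy
    refine ⟨0, by simp, by simpa using hy, fun i => by simp⟩
  | succ m ih =>
    intro y hy
    set θ := (q : ℝ) * ζ - p with hθ
    obtain ⟨R, hRdeg, hRapp, hRcoeff⟩ := ih (Int.fract (y / θ)) (by
      rw [abs_of_nonneg (Int.fract_nonneg _)]
      exact (Int.fract_lt_one _).le)
    refine ⟨(R + C ⌊y / θ⌋) * (C q * X - C p), ?_, ?_, ?_⟩
    · refine natDegree_mul_le.trans ?_
      have h1 : (R + C ⌊y / θ⌋).natDegree ≤ m :=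
        (natDegree_add_le _ _).trans (by simpa using hRdeg)
      have h2 := lin_natDegree q p
      omega
    · have h1 : aeval ζ ((R + C ⌊y / θ⌋) * (C q * X - C p)) - y =
          θ * (aeval ζ R - Int.fract (y / θ)) := by
        rw [map_mul, map_add, lin_aeval, aeval_C_int, ← hθ]
        have h2 : y = θ * (y / θ) := by field_simp
        have h3 : Int.fract (y / θ) = y / θ - ⌊y / θ⌋ := rfl
        rw [h3]
        linear_combination (-1 : ℝ) * h2
      rw [h1, abs_mul, pow_succ, mul_comm]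
      exact mul_le_mul_of_nonneg_right hRapp (abs_nonneg _)
    · intro i
      have h1 : ∀ j, |((R + C ⌊y / θ⌋).coeff j : ℝ)| ≤ m * (2 * h) ^ m * V + V := by
        intro j
        rw [coeff_add]
        push_cast
        refine (abs_add_le _ _).trans (add_le_add (hRcoeff j) ?_)
        rw [coeff_C]
        split_ifs
        · refine le_trans ?_ hV
          have h2 : |(⌊y / θ⌋ : ℝ)| ≤ |y / θ| + 1 := by
            rw [abs_le]
            have := Int.floor_le (y / θ)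
            have := Int.sub_one_lt_floor (y / θ)
            have := neg_abs_le (y / θ)
            have := le_abs_self (y / θ)
            constructor <;> linarith
          refine h2.trans ?_
          rw [abs_div]
          gcongr
        · simpa using hV0
      have h3 := abs_coeff_mul_le (R + C ⌊y / θ⌋) (C q * X - C p) 1 (lin_natDegree q p) _ _ h1
        (lin_coeff q p h hq hp) i
      refine h3.trans ?_
      push_cast
      have h4 : 1 ≤ (2 * h) ^ m := one_le_pow₀ (by linarith)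
      have h5 : V ≤ (2 * h) ^ m * V := le_mul_of_one_le_left hV0 h4
      calc (1 + 1) * ((m * (2 * h) ^ m * V + V) * h)
          ≤ (1 + 1) * ((m * (2 * h) ^ m * V + (2 * h) ^ m * V) * h) := by gcongr
        _ = (m + 1) * (2 * h) ^ (m + 1) * V := by ring

/-- Dirichlet approximation by quadratic polynomials (pigeonhole). -/
theorem dirichlet_quadratic (ζ : ℝ) (H : ℕ) (hH : 1 ≤ H) :
    ∃ a b c : ℤ, (a ≠ 0 ∨ b ≠ 0) ∧ |(a : ℝ)| ≤ H ∧ |(b : ℝ)| ≤ H ∧
      |(a : ℝ) * ζ ^ 2 + b * ζ + c| < 1 / (H : ℝ) ^ 2 := by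
  have hH0 : (0 : ℝ) < H := by exact_mod_cast hH
  let f : ℕ × ℕ → ℤ := fun x => ⌊(H : ℝ) ^ 2 * Int.fract ((x.1 : ℝ) * ζ ^ 2 + x.2 * ζ)⌋
  have hmaps : ∀ x ∈ Finset.range (H + 1) ×ˢ Finset.range (H + 1),
      f x ∈ Finset.Ico (0 : ℤ) ((H ^ 2 : ℕ) : ℤ) := by
    intro x _
    rw [Finset.mem_Ico]
    constructor
    · apply Int.floor_nonneg.2
      exact mul_nonneg (by positivity) (Int.fract_nonneg _)
    · apply Int.floor_lt.2
      push_cast
      have := Int.fract_lt_one ((x.1 : ℝ) * ζ ^ 2 + x.2 * ζ)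
      calc (H : ℝ) ^ 2 * Int.fract ((x.1 : ℝ) * ζ ^ 2 + x.2 * ζ) < (H : ℝ) ^ 2 * 1 := by
            apply mul_lt_mul_of_pos_left this (by positivity)
        _ = (H : ℝ) ^ 2 := mul_one _
  have hcard : (Finset.Ico (0 : ℤ) ((H ^ 2 : ℕ) : ℤ)).card <
      (Finset.range (H + 1) ×ˢ Finset.range (H + 1)).card := by
    rw [Int.card_Ico, Finset.card_product, Finset.card_range]
    simp only [sub_zero, Int.toNat_natCast]
    nlinarith
  obtain ⟨x, hx, y, hy, hxy, hf⟩ := Finset.exists_ne_map_eq_of_card_lt_of_maps_to hcard hmaps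
  rw [Finset.mem_product, Finset.mem_range, Finset.mem_range] at hx hy
  refine ⟨(x.1 : ℤ) - y.1, (x.2 : ℤ) - y.2,
    -(⌊(x.1 : ℝ) * ζ ^ 2 + x.2 * ζ⌋ - ⌊(y.1 : ℝ) * ζ ^ 2 + y.2 * ζ⌋), ?_, ?_, ?_, ?_⟩
  · by_contra hcon
    push Not at hcon
    apply hxy
    apply Prod.ext
    · have := hcon.1
      omega
    · have := hcon.2
      omega
  · push_cast
    rw [abs_le]
    have h1 : (x.1 : ℝ) ≤ H := by exact_mod_cast Nat.lt_succ_iff.1 hx.1
    have h2 : (y.1 : ℝ) ≤ H := by exact_mod_cast Nat.lt_succ_iff.1 hy.1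
    have h3 : (0 : ℝ) ≤ x.1 := by positivity
    have h4 : (0 : ℝ) ≤ y.1 := by positivity
    constructor <;> linarith
  · push_cast
    rw [abs_le]
    have h1 : (x.2 : ℝ) ≤ H := by exact_mod_cast Nat.lt_succ_iff.1 hx.2
    have h2 : (y.2 : ℝ) ≤ H := by exact_mod_cast Nat.lt_succ_iff.1 hy.2
    have h3 : (0 : ℝ) ≤ x.2 := by positivity
    have h4 : (0 : ℝ) ≤ y.2 := by positivity
    constructor <;> linarith
  · have h1 : (((x.1 : ℤ) - y.1 : ℤ) : ℝ) * ζ ^ 2 + (((x.2 : ℤ) - y.2 : ℤ) : ℝ) * ζ +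
        ((-(⌊(x.1 : ℝ) * ζ ^ 2 + x.2 * ζ⌋ - ⌊(y.1 : ℝ) * ζ ^ 2 + y.2 * ζ⌋) : ℤ) : ℝ) =
        Int.fract ((x.1 : ℝ) * ζ ^ 2 + x.2 * ζ) - Int.fract ((y.1 : ℝ) * ζ ^ 2 + y.2 * ζ) := by
      unfold Int.fract
      push_cast
      ring
    rw [h1]
    have h2 := Int.abs_sub_lt_one_of_floor_eq_floor hf
    rw [← mul_sub, abs_mul, abs_of_nonneg (by positivity : (0 : ℝ) ≤ (H : ℝ) ^ 2)] at h2
    rw [lt_div_iff₀ (by positivity)]
    linarith

/-- What being non-Liouville gives. -/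
theorem not_liouville (ζ : ℝ) (hirr : Irrational ζ) (hL : ¬ Liouville ζ) :
    ∃ (w : ℕ) (c : ℝ), 0 < c ∧ c ≤ 1 ∧ ∀ q p : ℤ, q ≠ 0 →
      c ≤ |(q : ℝ)| ^ w * |(q : ℝ) * ζ - p| := by
  unfold Liouville at hL
  push Not at hL
  obtain ⟨w, hw⟩ := hL
  set c := min 1 |ζ - round ζ| with hc
  have hc0 : 0 < |ζ - round ζ| := by
    rw [abs_pos, sub_ne_zero]
    exact hirr.ne_int _
  refine ⟨w, c, lt_min one_pos hc0, min_le_left _ _, ?_⟩
  have key : ∀ q p : ℤ, 0 < q → c ≤ |(q : ℝ)| ^ w * |(q : ℝ) * ζ - p| := by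
    intro q p hq
    have hq0 : (0 : ℝ) < q := by exact_mod_cast hq
    have hq1 : (1 : ℝ) ≤ q := by exact_mod_cast hq
    rcases eq_or_lt_of_le (show 1 ≤ q by omega) with h1 | h1
    · rw [← h1]
      simp only [Int.cast_one, abs_one, one_pow, one_mul]
      exact (min_le_right _ _).trans (round_le ζ p)
    · have h2 := hw p q h1 (by
        intro h
        apply hirr
        exact ⟨(p : ℚ) / q, by push_cast; exact h.symm⟩)
      have h3 : |(q : ℝ) * ζ - p| = q * |ζ - p / q| := by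
        rw [← abs_of_pos hq0, ← abs_mul, abs_of_pos hq0]
        congr 1
        field_simp
      rw [h3, abs_of_pos hq0]
      calc c ≤ 1 := min_le_left _ _
        _ = (q : ℝ) ^ w * (1 * (1 / (q : ℝ) ^ w)) := by field_simp
        _ ≤ (q : ℝ) ^ w * (q * |ζ - p / q|) := by
            apply mul_le_mul_of_nonneg_left _ (by positivity)
            exact mul_le_mul hq1 h2 (by positivity) hq0.le
  intro q p hq
  rcases lt_or_gt_of_ne hq with h | h
  · have := key (-q) (-p) (by omega)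
    push_cast at this
    rw [abs_neg] at this
    rw [show (q : ℝ) * ζ - p = -(-(q : ℝ) * ζ - -p) by ring, abs_neg]
    exact this
  · exact key q p h


/-- The constant in the density lemma. -/
noncomputable def Cd (A c : ℝ) (m : ℕ) : ℝ := m * (2 * (A + 1)) ^ m * (1 / c + 1)

theorem density' (ζ A c : ℝ) (hA : |ζ| + 1 ≤ A) (hc0 : 0 < c) (w : ℕ)
    (hw : ∀ q p : ℤ, q ≠ 0 → c ≤ |(q : ℝ)| ^ w * |(q : ℝ) * ζ - p|)
    (B : ℕ) (hB : 1 ≤ B) (m : ℕ) (y : ℝ) (hy : |y| ≤ 1) :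
    ∃ R : ℤ[X], R.natDegree ≤ m ∧ |aeval ζ R - y| ≤ 1 / (B : ℝ) ^ m ∧
      ∀ i, |(R.coeff i : ℝ)| ≤ Cd A c m * (B : ℝ) ^ (m + w) := by
  obtain ⟨p, q, hq0, hqB, hqp⟩ := Real.exists_int_int_abs_mul_sub_le ζ (show 0 < B by omega)
  have hB0 : (0 : ℝ) < B := by exact_mod_cast hB
  have hB1 : (1 : ℝ) ≤ B := by exact_mod_cast hB
  have hq0' : (0 : ℝ) < q := by exact_mod_cast hq0
  have hqB' : (q : ℝ) ≤ B := by exact_mod_cast hqB
  have hζ0 := abs_nonneg ζ
  have hA1 : 1 ≤ A := by linarith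
  have hqabs : |(q : ℝ)| ≤ B := by rw [abs_of_pos hq0']; exact hqB'
  have hθle : |(q : ℝ) * ζ - p| ≤ 1 / B := by
    refine hqp.trans ?_
    apply one_div_le_one_div_of_le hB0
    linarith
  have hθ := hw q p (by omega)
  have hθ0 : 0 < |(q : ℝ) * ζ - p| := by
    rcases eq_or_lt_of_le (abs_nonneg ((q : ℝ) * ζ - p)) with h | h
    · rw [← h, mul_zero] at hθ
      linarith
    · exact h
  have h1 : |(p : ℝ)| ≤ (A + 1) * B := by
    have : (p : ℝ) = q * ζ - (q * ζ - p) := by ring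
    rw [this]
    refine (abs_sub _ _).trans ?_
    rw [abs_mul]
    have h2 : |(q : ℝ)| * |ζ| ≤ B * A := by
      apply mul_le_mul hqabs (by linarith) (abs_nonneg _) hB0.le
    have h3 : 1 / (B : ℝ) ≤ B := by
      rw [div_le_iff₀ hB0]
      nlinarith
    calc |(q : ℝ)| * |ζ| + |(q : ℝ) * ζ - p| ≤ B * A + B := by linarith
      _ = (A + 1) * B := by ring
  have h2 : |(q : ℝ)| ≤ (A + 1) * B := hqabs.trans (by nlinarith)
  have h3 : 1 / |(q : ℝ) * ζ - p| + 1 ≤ (1 / c + 1) * (B : ℝ) ^ w := by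
    have h4 : |(q : ℝ)| ^ w ≤ (B : ℝ) ^ w := pow_le_pow_left₀ (abs_nonneg _) hqabs w
    have h5 : 1 / |(q : ℝ) * ζ - p| ≤ 1 / c * (B : ℝ) ^ w := by
      rw [div_mul_eq_mul_div, one_mul, div_le_div_iff₀ hθ0 hc0]
      calc 1 * c ≤ |(q : ℝ)| ^ w * |(q : ℝ) * ζ - p| := by linarith
        _ ≤ (B : ℝ) ^ w * |(q : ℝ) * ζ - p| := by gcongr
    have h6 : (1 : ℝ) ≤ (B : ℝ) ^ w := one_le_pow₀ hB1
    linarith
  obtain ⟨R, hR1, hR2, hR3⟩ := density ζ q p ((A + 1) * B) ((1 / c + 1) * (B : ℝ) ^ w)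
    (by nlinarith) h2 h1 (abs_pos.1 hθ0) h3 m y hy
  refine ⟨R, hR1, ?_, ?_⟩
  · refine hR2.trans ?_
    calc |(q : ℝ) * ζ - p| ^ m ≤ (1 / (B : ℝ)) ^ m := pow_le_pow_left₀ (abs_nonneg _) hθle m
      _ = 1 / (B : ℝ) ^ m := by rw [one_div_pow]
  · intro i
    refine (hR3 i).trans (le_of_eq ?_)
    unfold Cd
    rw [pow_add, show 2 * ((A + 1) * (B : ℝ)) = (2 * (A + 1)) * B by ring, mul_pow]
    ring

/-- The quadratic has a derivative of size at least `1/2` at `ζ` if its value is tiny. -/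
theorem quad_deriv (ζ c : ℝ) (hc0 : 0 < c) (w : ℕ)
    (hw : ∀ q p : ℤ, q ≠ 0 → c ≤ |(q : ℝ)| ^ w * |(q : ℝ) * ζ - p|)
    (a b k : ℤ) (hab : a ≠ 0 ∨ b ≠ 0) (N δ : ℝ) (ha : |(a : ℝ)| ≤ N)
    (hδ : |(a : ℝ) * ζ ^ 2 + b * ζ + k| ≤ δ) (h1 : 4 * N * δ ≤ 1 / 2)
    (h2 : (2 * N) ^ (2 * w) * (4 * N * δ) < c ^ 2) : 1 / 2 ≤ |2 * (a : ℝ) * ζ + b| := by
  have hN : 0 ≤ N := (abs_nonneg _).trans ha
  have hδ0 : 0 ≤ δ := (abs_nonneg _).trans hδ
  have hid : (2 * (a : ℝ) * ζ + b) ^ 2 =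
      ((b ^ 2 - 4 * a * k : ℤ) : ℝ) + 4 * a * ((a : ℝ) * ζ ^ 2 + b * ζ + k) := by
    push_cast; ring
  have hsmall : |4 * (a : ℝ) * ((a : ℝ) * ζ ^ 2 + b * ζ + k)| ≤ 4 * N * δ := by
    rw [abs_mul, abs_mul, abs_of_pos (by norm_num : (0 : ℝ) < 4)]
    gcongr
  have hsm := abs_le.1 hsmall
  rcases lt_trichotomy (b ^ 2 - 4 * a * k) 0 with h | h | h
  · exfalso
    have h3 : ((b ^ 2 - 4 * a * k : ℤ) : ℝ) ≤ -1 := by exact_mod_cast (by omega : b ^ 2 - 4 * a * k ≤ -1)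
    have h4 : 0 ≤ (2 * (a : ℝ) * ζ + b) ^ 2 := sq_nonneg _
    rw [hid] at h4
    linarith [hsm.2]
  · exfalso
    rw [h, Int.cast_zero, zero_add] at hid
    by_cases ha0 : a = 0
    · subst ha0
      simp only [mul_zero, zero_mul, sub_zero] at h
      have hb0 : b = 0 := by
        exact pow_eq_zero_iff (two_ne_zero) |>.1 h
      rcases hab with h' | h'
      · exact h' rfl
      · exact h' hb0
    · have h3 := hw (2 * a) (-b) (by omega)
      push_cast at h3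
      rw [sub_neg_eq_add] at h3
      have h4 : c ^ 2 ≤ (|2 * (a : ℝ)| ^ w * |2 * (a : ℝ) * ζ + b|) ^ 2 :=
        pow_le_pow_left₀ hc0.le h3 2
      rw [mul_pow, sq_abs, hid, ← pow_mul] at h4
      have h5 : |2 * (a : ℝ)| ^ (w * 2) ≤ (2 * N) ^ (2 * w) := by
        rw [mul_comm w 2]
        apply pow_le_pow_left₀ (abs_nonneg _)
        rw [abs_mul, abs_of_pos (by norm_num : (0 : ℝ) < 2)]
        linarith
      have h6 : |2 * (a : ℝ)| ^ (w * 2) * (4 * a * ((a : ℝ) * ζ ^ 2 + b * ζ + k)) ≤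
          (2 * N) ^ (2 * w) * (4 * N * δ) := by
        refine (mul_le_mul_of_nonneg_left hsm.2 (by positivity)).trans ?_
        apply mul_le_mul_of_nonneg_right h5 (by positivity)
      linarith
  · have h3 : (1 : ℝ) ≤ ((b ^ 2 - 4 * a * k : ℤ) : ℝ) := by exact_mod_cast h
    have h4 : (1 / 2 : ℝ) ^ 2 ≤ |2 * (a : ℝ) * ζ + b| ^ 2 := by
      rw [sq_abs, hid]
      linarith [hsm.1]
    exact le_of_sq_le_sq h4 (abs_nonneg _)


theorem quad_natDegree (a b k : ℤ) : (C a * X ^ 2 + C b * X + C k : ℤ[X]).natDegree ≤ 2 := by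
  compute_degree

theorem quad_aeval (a b k : ℤ) (ζ : ℝ) :
    aeval ζ (C a * X ^ 2 + C b * X + C k : ℤ[X]) = (a : ℝ) * ζ ^ 2 + b * ζ + k := by
  simp only [map_add, map_mul, aeval_C_int, aeval_X, map_pow]

theorem quad_coeff (a b k : ℤ) (K : ℝ) (ha : |(a : ℝ)| ≤ K) (hb : |(b : ℝ)| ≤ K)
    (hk : |(k : ℝ)| ≤ K) (j : ℕ) :
    |((C a * X ^ 2 + C b * X + C k : ℤ[X]).coeff j : ℝ)| ≤ K := by
  have h0 : 0 ≤ K := le_trans (abs_nonneg _) ha
  rcases j with _ | _ | _ | j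
  · have : (C a * X ^ 2 + C b * X + C k : ℤ[X]).coeff 0 = k := by
      simp
    rw [this]; exact hk
  · have : (C a * X ^ 2 + C b * X + C k : ℤ[X]).coeff 1 = b := by
      rw [coeff_add, coeff_add, coeff_C_mul, coeff_C_mul, coeff_X_one, coeff_C, coeff_X_pow]
      simp
    rw [zero_add, this]; exact hb
  · have : (C a * X ^ 2 + C b * X + C k : ℤ[X]).coeff 2 = a := by
      rw [coeff_add, coeff_add, coeff_C_mul, coeff_C_mul, coeff_X, coeff_C, coeff_X_pow]
      simp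
    rw [show 0 + 1 + 1 = 2 by rfl, this]; exact ha
  · rw [coeff_eq_zero_of_natDegree_lt (lt_of_le_of_lt (quad_natDegree a b k) (by omega))]
    simpa using h0

/-- Bridge between integer polynomials and their real images. -/
theorem aeval_eq (P : ℤ[X]) (x : ℝ) : aeval x P = (P.map (Int.castRingHom ℝ)).eval x := by
  rw [aeval_def, eval_map]
  rfl

/-- The output we want at the parameter `B`. -/
def Good (ζ : ℝ) (n M B : ℕ) : Prop :=
  ∃ (α : ℝ) (F : ℤ[X]) (K : ℝ), Irreducible F ∧ F.natDegree ≤ n ∧ aeval α F = 0 ∧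
    (∀ i, |(F.coeff i : ℝ)| ≤ K) ∧ K ≤ (B : ℝ) ^ M ∧ 0 < |ζ - α| ∧
    K * |ζ - α| ≤ 1 / (B : ℝ) ^ (M + 1)

/-- From a polynomial with a good real root to `Good`. -/
theorem good_of_poly (ζ : ℝ) (htr : Transcendental ℤ ζ) (n M B : ℕ) (P : ℤ[X]) (hP : P ≠ 0)
    (hPn : P.natDegree ≤ n) (K : ℝ) (hK : ∀ i, |(P.coeff i : ℝ)| ≤ K) (β : ℝ)
    (hβ : aeval β P = 0) (r : ℝ) (hr : |β - ζ| ≤ r)
    (h1 : (2 : ℝ) ^ n * (n + 1) * K ≤ (B : ℝ) ^ M)
    (h2 : (2 : ℝ) ^ n * (n + 1) * K * r ≤ 1 / (B : ℝ) ^ (M + 1)) : Good ζ n M B := by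
  obtain ⟨F, hF1, hF2, hF3, hF4⟩ := exists_factor P hP n hPn β hβ K hK
  have hK0 : 0 ≤ K := le_trans (abs_nonneg _) (hK 0)
  refine ⟨β, F, _, hF1, hF2, hF3, hF4, h1, ?_, ?_⟩
  · rw [abs_pos, sub_ne_zero]
    rintro rfl
    exact htr ⟨F, hF1.ne_zero, hF3⟩
  · rw [abs_sub_comm]
    refine le_trans ?_ h2
    apply mul_le_mul_of_nonneg_left hr (by positivity)

/-- Case 1: the quadratic polynomial itself is extremely small at `ζ`. -/
theorem case_one (ζ A c : ℝ) (hA : |ζ| + 1 ≤ A) (hc0 : 0 < c) (htr : Transcendental ℤ ζ)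
    (w : ℕ) (hw : ∀ q p : ℤ, q ≠ 0 → c ≤ |(q : ℝ)| ^ w * |(q : ℝ) * ζ - p|)
    (e n M B : ℕ) (hn : 2 ≤ n) (hMe : 2 * e * w + e ≤ M) (hMe1 : e + 1 ≤ M) (hB : 1 ≤ B)
    (hB1 : (8 : ℝ) ≤ B) (hB2 : 2 ^ (2 * w + 3) / c ^ 2 ≤ B)
    (hB3 : 576 * A ^ 4 ≤ (B : ℝ)) (hB4 : (2 : ℝ) ^ n * (n + 1) * (12 * A ^ 2) ≤ B)
    (a b k : ℤ) (hab : a ≠ 0 ∨ b ≠ 0) (ha : |(a : ℝ)| ≤ (B : ℝ) ^ e)
    (hb : |(b : ℝ)| ≤ (B : ℝ) ^ e) (hQ : |(a : ℝ) * ζ ^ 2 + b * ζ + k| ≤ 1 / (B : ℝ) ^ (M + e + 2)) :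
    Good ζ n M B := by
  have hB0 : (0 : ℝ) < B := by linarith
  have hB1' : (1 : ℝ) ≤ B := by linarith
  have hζ0 := abs_nonneg ζ
  have hA1 : 1 ≤ A := by linarith
  have hc2 : 0 < c ^ 2 := by positivity
  have hd := quad_deriv ζ c hc0 w hw a b k hab ((B : ℝ) ^ e) (1 / (B : ℝ) ^ (M + e + 2)) ha hQ
    (by
      rw [mul_one_div, div_le_iff₀ (by positivity)]
      have h1 : (B : ℝ) ^ (M + e + 2) = (B : ℝ) ^ e * (B ^ (M + 1) * B) := by ring
      rw [h1]
      have h2 : (1 : ℝ) ≤ (B : ℝ) ^ (M + 1) := one_le_pow₀ hB1'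
      have h3 : (8 : ℝ) ≤ (B : ℝ) ^ (M + 1) * B := by nlinarith
      have h4 : (0 : ℝ) < (B : ℝ) ^ e := by positivity
      nlinarith)
    (by
      have h1 : (2 * (B : ℝ) ^ e) ^ (2 * w) * (4 * (B : ℝ) ^ e * (1 / (B : ℝ) ^ (M + e + 2))) =
        2 ^ (2 * w + 2) * (B : ℝ) ^ (2 * e * w + e) / (B : ℝ) ^ (M + e + 2) := by
        rw [mul_pow, ← pow_mul]
        field_simp
        ring
      rw [h1, div_lt_iff₀ (by positivity)]
      have h2 : (B : ℝ) ^ (2 * e * w + e) ≤ (B : ℝ) ^ (M + e) :=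
        pow_le_pow_right₀ hB1' (by omega)
      have h3 : (B : ℝ) ^ (M + e + 2) = (B : ℝ) ^ (M + e) * B * B := by ring
      rw [div_le_iff₀ hc2] at hB2
      have h4 : (0 : ℝ) < (B : ℝ) ^ (M + e) := by positivity
      calc (2 : ℝ) ^ (2 * w + 2) * (B : ℝ) ^ (2 * e * w + e)
          ≤ 2 ^ (2 * w + 2) * (B : ℝ) ^ (M + e) := by gcongr
        _ < 2 ^ (2 * w + 3) * (B : ℝ) ^ (M + e) := by
            apply mul_lt_mul_of_pos_right _ h4
            apply pow_lt_pow_right₀ (by norm_num) (by omega)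
        _ ≤ (B * c ^ 2) * (B : ℝ) ^ (M + e) := by gcongr
        _ = (c ^ 2 * ((B : ℝ) ^ (M + e) * B)) * 1 := by ring
        _ ≤ (c ^ 2 * ((B : ℝ) ^ (M + e) * B)) * B := by gcongr
        _ = c ^ 2 * (B : ℝ) ^ (M + e + 2) := by rw [h3]; ring)
  -- bound for the constant coefficient
  have hk : |(k : ℝ)| ≤ 3 * A ^ 2 * (B : ℝ) ^ e := by
    have h1 : (k : ℝ) = ((a : ℝ) * ζ ^ 2 + b * ζ + k) - (a : ℝ) * ζ ^ 2 - b * ζ := by ring
    have h2 : |(a : ℝ) * ζ ^ 2 + b * ζ + k| ≤ (B : ℝ) ^ e := by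
      refine hQ.trans ?_
      rw [div_le_iff₀ (by positivity), ← pow_add]
      exact one_le_pow₀ hB1'
    have h3 : |(a : ℝ) * ζ ^ 2| ≤ (B : ℝ) ^ e * A ^ 2 := by
      rw [abs_mul, abs_pow]
      gcongr
      linarith
    have h4 : |(b : ℝ) * ζ| ≤ (B : ℝ) ^ e * A := by
      rw [abs_mul]
      gcongr
      linarith
    have h5 : (0 : ℝ) < (B : ℝ) ^ e := by positivity
    have h6 : A ≤ A ^ 2 := by nlinarith
    have h7 : 1 ≤ A ^ 2 := by nlinarith
    rw [h1]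
    calc |(a : ℝ) * ζ ^ 2 + b * ζ + k - (a : ℝ) * ζ ^ 2 - b * ζ|
        ≤ |(a : ℝ) * ζ ^ 2 + b * ζ + k| + |(a : ℝ) * ζ ^ 2| + |(b : ℝ) * ζ| :=
          (abs_sub _ _).trans (add_le_add (abs_sub _ _) le_rfl)
      _ ≤ (B : ℝ) ^ e + (B : ℝ) ^ e * A ^ 2 + (B : ℝ) ^ e * A := by linarith
      _ ≤ 3 * A ^ 2 * (B : ℝ) ^ e := by nlinarith
  set Q : ℤ[X] := C a * X ^ 2 + C b * X + C k with hQdef
  have hK : ∀ i, |(Q.coeff i : ℝ)| ≤ 3 * A ^ 2 * (B : ℝ) ^ e := by
    have h5 : (0 : ℝ) < (B : ℝ) ^ e := by positivity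
    have h7 : 1 ≤ A ^ 2 := by nlinarith
    exact quad_coeff a b k _ (ha.trans (by nlinarith)) (hb.trans (by nlinarith)) hk
  set g : ℝ[X] := Q.map (Int.castRingHom ℝ) with hg
  have hgK : ∀ i, |g.coeff i| ≤ 3 * A ^ 2 * (B : ℝ) ^ e := by
    intro i
    rw [hg, coeff_map]
    exact hK i
  have hgn : g.natDegree ≤ 2 := natDegree_map_le.trans (quad_natDegree a b k)
  have hgζ : g.eval ζ = (a : ℝ) * ζ ^ 2 + b * ζ + k := by
    rw [hg, ← aeval_eq, hQdef, quad_aeval]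
  have hgder : (derivative g).eval ζ = 2 * (a : ℝ) * ζ + b := by
    rw [hg, hQdef, derivative_map, derivative_add, derivative_add, derivative_C,
      derivative_C_mul, derivative_C_mul, derivative_X_pow, derivative_X]
    simp
    ring
  obtain ⟨β, hβ1, hβ2⟩ := exists_root g 2 hgn _ A hA1 hgK ζ hA (1 / 2)
    (4 * (1 / (B : ℝ) ^ (M + e + 2))) (by norm_num) (by rw [hgder]; exact hd)
    (by rw [hgζ]; linarith)
    (by
      rw [mul_one_div, div_le_one (by positivity)]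
      have h1 : (B : ℝ) ^ (M + e + 2) = B ^ (M + e + 1) * B := by ring
      have h2 : (1 : ℝ) ≤ (B : ℝ) ^ (M + e + 1) := one_le_pow₀ hB1'
      rw [h1]
      nlinarith)
    (by
      have h1 : ((2 : ℕ) + 1 : ℝ) * ((2 : ℕ) * ((2 : ℕ) * (3 * A ^ 2 * (B : ℝ) ^ e))) * A ^ 2 *
          (4 * (1 / (B : ℝ) ^ (M + e + 2))) = 144 * A ^ 4 * (B : ℝ) ^ e / (B : ℝ) ^ (M + e + 2) := by
        push_cast
        field_simp
        ring
      rw [h1, div_le_iff₀ (by positivity)]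
      have h2 : (B : ℝ) ^ (M + e + 2) = B ^ e * (B ^ (M + 1) * B) := by ring
      have h3 : (1 : ℝ) ≤ (B : ℝ) ^ (M + 1) := one_le_pow₀ hB1'
      have h4 : (B : ℝ) ≤ (B : ℝ) ^ (M + 1) * B := by nlinarith
      rw [h2]
      calc 144 * A ^ 4 * (B : ℝ) ^ e ≤ (B / 4) * (B : ℝ) ^ e := by
            apply mul_le_mul_of_nonneg_right _ (by positivity)
            linarith
        _ ≤ ((B : ℝ) ^ (M + 1) * B / 4) * (B : ℝ) ^ e := by gcongr
        _ = 1 / 2 / 2 * ((B : ℝ) ^ e * ((B : ℝ) ^ (M + 1) * B)) := by ring)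
  have hQ0 : Q ≠ 0 := by
    intro h0
    rw [h0] at hQdef
    have h1 : (2 * (a : ℝ) * ζ + b) = 0 := by
      rw [← hgder, hg, h0]
      simp
    rw [h1] at hd
    norm_num at hd
  have h12 : (2 : ℝ) ^ n * (n + 1) * (3 * A ^ 2 * (B : ℝ) ^ e) ≤ (B : ℝ) ^ (e + 1) := by
    rw [show (B : ℝ) ^ (e + 1) = B * (B : ℝ) ^ e by ring]
    calc (2 : ℝ) ^ n * (n + 1) * (3 * A ^ 2 * (B : ℝ) ^ e)
        = ((2 : ℝ) ^ n * (n + 1) * (3 * A ^ 2)) * (B : ℝ) ^ e := by ring
      _ ≤ B * (B : ℝ) ^ e := by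
          apply mul_le_mul_of_nonneg_right _ (by positivity)
          refine le_trans ?_ hB4
          gcongr
          norm_num
  apply good_of_poly ζ htr n M B Q hQ0 ((quad_natDegree a b k).trans hn) _ hK β
    (by rw [aeval_eq]; exact hβ1) _ hβ2
  · exact h12.trans (pow_le_pow_right₀ hB1' hMe1)
  · rw [mul_one_div, ← mul_div_assoc, div_le_div_iff₀ (by positivity) (by positivity)]
    have h1 : (B : ℝ) ^ (M + e + 2) = B ^ (M + 1) * ((B : ℝ) * (B : ℝ) ^ e) := by ring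
    rw [h1, one_mul, mul_comm ((B : ℝ) ^ (M + 1))]
    apply mul_le_mul_of_nonneg_right _ (by positivity)
    calc (2 : ℝ) ^ n * (n + 1) * (3 * A ^ 2 * (B : ℝ) ^ e) * 4
        = ((2 : ℝ) ^ n * (n + 1) * (12 * A ^ 2)) * (B : ℝ) ^ e := by ring
      _ ≤ B * (B : ℝ) ^ e := mul_le_mul_of_nonneg_right hB4 (by positivity)


/-- Adding a constant to a polynomial changes coefficients by at most that constant. -/
theorem coeff_add_C_le (P : ℤ[X]) (s : ℤ) (K L : ℝ) (hK : ∀ i, |(P.coeff i : ℝ)| ≤ K)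
    (hL : |(s : ℝ)| ≤ L) (i : ℕ) : |((P + C s).coeff i : ℝ)| ≤ K + L := by
  have hL0 : 0 ≤ L := (abs_nonneg _).trans hL
  rw [coeff_add]
  push_cast
  refine (abs_add_le _ _).trans (add_le_add (hK i) ?_)
  rw [coeff_C]
  split_ifs
  · exact hL
  · simpa using hL0

theorem floor_abs_le (x L : ℝ) (h : |x| ≤ L) : |((⌊x⌋ : ℤ) : ℝ)| ≤ L + 1 := by
  rw [abs_le]
  have := Int.floor_le x
  have := Int.sub_one_lt_floor x
  have := abs_le.1 h
  constructor <;> linarith [this.1, this.2]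

/-- Case 2, algebraic part: construction of the polynomial `P = R Q + S`. Here `b' = B^(M-1)`
and `M = m + w + e + 2`. We return `G = R Q + S₁` (small coefficients) and the integer `s`. -/
theorem case_two_aux (ζ A c : ℝ) (hA : |ζ| + 1 ≤ A) (hc0 : 0 < c)
    (w : ℕ) (hw : ∀ q p : ℤ, q ≠ 0 → c ≤ |(q : ℝ)| ^ w * |(q : ℝ) * ζ - p|)
    (e m B : ℕ) (hm : 2 * e + 4 ≤ m) (hB : 1 ≤ B) (b' : ℕ)
    (Q : ℤ[X]) (hQn : Q.natDegree ≤ 2) (hQK : ∀ i, |(Q.coeff i : ℝ)| ≤ 3 * A ^ 2 * (B : ℝ) ^ e)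
    (hQ1 : 1 / (B : ℝ) ^ (m + w + 2 * e + 4) ≤ |aeval ζ Q|)
    (hQ2 : |aeval ζ Q| ≤ 1 / (B : ℝ) ^ (2 * e)) :
    ∃ (G : ℤ[X]) (s : ℤ), G.natDegree ≤ m + 2 ∧
      (∀ i, |(G.coeff i : ℝ)| ≤
        (9 * A ^ 2 * (Cd A c m + 2) + Cd A c (2 * e + 4)) * (B : ℝ) ^ (m + w + e)) ∧
      |(s : ℝ)| ≤ b' * |ζ| + 1 ∧
      |aeval ζ G + b' * ζ + s| ≤ 1 / (B : ℝ) ^ (2 * e + m) := by
  have hB0 : (0 : ℝ) < B := by exact_mod_cast hB
  have hB1 : (1 : ℝ) ≤ B := by exact_mod_cast hB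
  have hζ0 := abs_nonneg ζ
  have hA1 : 1 ≤ A := by linarith
  have hCd : ∀ m, 0 ≤ Cd A c m := by
    intro m
    unfold Cd
    positivity
  have hQpos : 0 < |aeval ζ Q| := lt_of_lt_of_le (by positivity) hQ1
  have hQne : aeval ζ Q ≠ 0 := abs_pos.1 hQpos
  -- the polynomial S₁
  obtain ⟨S, hS1, hS2, hS3⟩ := density' ζ A c hA hc0 w hw B hB (2 * e + 4)
    (Int.fract (-(b' * ζ))) (by
      rw [abs_of_nonneg (Int.fract_nonneg _)]
      exact (Int.fract_lt_one _).le)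
  set s : ℤ := ⌊-((b' : ℝ) * ζ)⌋ with hs
  have hsval : (b' : ℝ) * ζ + s = - Int.fract (-(b' * ζ)) := by
    unfold Int.fract
    rw [hs]
    ring
  set σ : ℝ := aeval ζ S + b' * ζ + s with hσ
  have hσ1 : |σ| ≤ 1 / (B : ℝ) ^ (2 * e + 4) := by
    rw [hσ, add_assoc, hsval, ← sub_eq_add_neg]
    exact hS2
  -- the target value for R
  set y : ℝ := -σ / aeval ζ Q with hy
  have hy1 : |y| ≤ (B : ℝ) ^ (m + w) := by
    rw [hy, abs_div, abs_neg, div_le_iff₀ hQpos]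
    refine hσ1.trans ?_
    refine le_trans ?_ (mul_le_mul_of_nonneg_left hQ1 (by positivity))
    have h1 : (B : ℝ) ^ (m + w + 2 * e + 4) = B ^ (m + w) * B ^ (2 * e + 4) := by ring
    rw [h1]
    apply le_of_eq
    field_simp
  obtain ⟨R, hR1, hR2, hR3⟩ := density' ζ A c hA hc0 w hw B hB m (Int.fract y) (by
      rw [abs_of_nonneg (Int.fract_nonneg _)]
      exact (Int.fract_lt_one _).le)
  have hR4 : ∀ i, |((R + C ⌊y⌋).coeff i : ℝ)| ≤ (Cd A c m + 2) * (B : ℝ) ^ (m + w) := by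
    intro i
    have h1 := coeff_add_C_le R ⌊y⌋ _ ((B : ℝ) ^ (m + w) + 1) hR3 (floor_abs_le y _ hy1) i
    refine h1.trans ?_
    have h2 : (1 : ℝ) ≤ (B : ℝ) ^ (m + w) := one_le_pow₀ hB1
    linarith
  refine ⟨(R + C ⌊y⌋) * Q + S, s, ?_, ?_, ?_, ?_⟩
  · refine (natDegree_add_le _ _).trans (max_le ?_ (hS1.trans (by omega)))
    refine natDegree_mul_le.trans ?_
    have h1 : (R + C ⌊y⌋).natDegree ≤ m := (natDegree_add_le _ _).trans (by simpa using hR1)
    omega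
  · intro i
    rw [coeff_add]
    push_cast
    have h1 := abs_coeff_mul_le (R + C ⌊y⌋) Q 2 hQn _ _ hR4 hQK i
    have h2 : |(S.coeff i : ℝ)| ≤ Cd A c (2 * e + 4) * (B : ℝ) ^ (m + w + e) := by
      refine (hS3 i).trans ?_
      apply mul_le_mul_of_nonneg_left _ (hCd _)
      exact pow_le_pow_right₀ hB1 (by omega)
    refine (abs_add_le _ _).trans ((add_le_add h1 h2).trans (le_of_eq ?_))
    push_cast
    ring
  · rw [hs]
    apply floor_abs_le
    rw [abs_neg, abs_mul, abs_of_nonneg (Nat.cast_nonneg _)]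
  · have h1 : aeval ζ ((R + C ⌊y⌋) * Q + S) + b' * ζ + s =
        aeval ζ Q * (aeval ζ R - Int.fract y) := by
      rw [map_add, map_mul, map_add, aeval_C_int]
      have h2 : aeval ζ Q * y = -σ := by
        rw [hy]
        field_simp
      have h3 : Int.fract y = y - ⌊y⌋ := rfl
      rw [h3]
      have h4 : aeval ζ S + b' * ζ + s = σ := rfl
      linear_combination h4 + h2
    rw [h1, abs_mul, pow_add, ← one_div_mul_one_div]
    exact mul_le_mul hQ2 hR2 (abs_nonneg _) (by positivity)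

/-- Case 2: the quadratic polynomial is not too small at `ζ`. -/
theorem case_two (ζ A c : ℝ) (hA : |ζ| + 1 ≤ A) (hc0 : 0 < c) (htr : Transcendental ℤ ζ)
    (w : ℕ) (hw : ∀ q p : ℤ, q ≠ 0 → c ≤ |(q : ℝ)| ^ w * |(q : ℝ) * ζ - p|)
    (e m B : ℕ) (he : e = w + 4) (hm : 2 * e + 4 ≤ m) (C3 C4 C5 : ℝ)
    (hC3 : C3 = 9 * A ^ 2 * (Cd A c m + 2) + Cd A c (2 * e + 4))
    (hC4 : C4 = ((m + 2 : ℕ) + 1) * ((m + 2 : ℕ) * C3) * A ^ (m + 2))
    (hC5 : C5 = C3 + 1 + A)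
    (hB4 : (4 : ℝ) ≤ B) (hB1 : 2 * C4 ≤ B)
    (hB2 : 16 * (((m + 2 : ℕ) + 1) * ((m + 2 : ℕ) * ((m + 2 : ℕ) * C5)) * A ^ (m + 2)) ≤ B)
    (hB3 : (2 : ℝ) ^ (m + 2) * ((m + 2 : ℕ) + 1) * C5 * 4 ≤ B)
    (Q : ℤ[X]) (hQn : Q.natDegree ≤ 2) (hQK : ∀ i, |(Q.coeff i : ℝ)| ≤ 3 * A ^ 2 * (B : ℝ) ^ e)
    (hQ1 : 1 / (B : ℝ) ^ (m + w + 2 * e + 4) ≤ |aeval ζ Q|)
    (hQ2 : |aeval ζ Q| ≤ 1 / (B : ℝ) ^ (2 * e)) :
    Good ζ (m + 2) (m + w + e + 2) B := by
  have hB : 1 ≤ B := by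
    have : (1 : ℝ) ≤ B := by linarith
    exact_mod_cast this
  have hB0 : (0 : ℝ) < B := by linarith
  have hB1' : (1 : ℝ) ≤ B := by linarith
  have hζ0 := abs_nonneg ζ
  have hA1 : 1 ≤ A := by linarith
  have hCd : ∀ m, 0 ≤ Cd A c m := by
    intro m
    unfold Cd
    positivity
  have hC3' : 0 ≤ C3 := by
    rw [hC3]
    have := hCd m
    have := hCd (2 * e + 4)
    positivity
  have hC5' : 0 ≤ C5 := by rw [hC5]; linarith
  obtain ⟨G, s, hG1, hG2, hs, hGs⟩ := case_two_aux ζ A c hA hc0 w hw e m B hm hB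
    (B ^ (m + w + e + 1)) Q hQn hQK hQ1 hQ2
  rw [← hC3] at hG2
  push_cast at hs hGs
  set D : ℝ := (B : ℝ) ^ (m + w + e) with hD
  have hD1 : 1 ≤ D := one_le_pow₀ hB1'
  have hD2 : (B : ℝ) ^ (m + w + e + 1) = B * D := by rw [hD]; ring
  have hD3 : (B : ℝ) ^ (m + w + e + 2) = B * (B * D) := by rw [hD]; ring
  rw [hD2] at hs hGs
  set P : ℤ[X] := G + C ((B : ℤ) ^ (m + w + e + 1)) * X + C s with hPdef
  have hPn : P.natDegree ≤ m + 2 := by
    refine (natDegree_add_le _ _).trans (max_le ((natDegree_add_le _ _).trans (max_le hG1 ?_)) ?_)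
    · refine (natDegree_C_mul_le _ _).trans ?_
      rw [natDegree_X]
      omega
    · rw [natDegree_C]
      omega
  have hPK : ∀ i, |(P.coeff i : ℝ)| ≤ C5 * (B * D) := by
    intro i
    have h1 : ∀ i, |((G + C ((B : ℤ) ^ (m + w + e + 1)) * X).coeff i : ℝ)| ≤ C3 * D + B * D := by
      intro i
      rw [coeff_add]
      push_cast
      refine (abs_add_le _ _).trans (add_le_add (hG2 i) ?_)
      rw [coeff_C_mul, coeff_X]
      push_cast
      rw [← hD2, abs_mul, abs_of_nonneg (by positivity : (0 : ℝ) ≤ (B : ℝ) ^ (m + w + e + 1))]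
      split_ifs
      · simp
      · simp
    refine (coeff_add_C_le _ s _ _ h1 hs i).trans ?_
    rw [hC5]
    have h2 : C3 * D ≤ C3 * (B * D) := by
      apply mul_le_mul_of_nonneg_left _ hC3'
      nlinarith
    have h3 : (B : ℝ) * D * |ζ| + 1 ≤ A * (B * D) := by
      have h4 : 1 ≤ (B : ℝ) * D := by nlinarith
      nlinarith
    linarith
  set g : ℝ[X] := P.map (Int.castRingHom ℝ) with hg
  set G' : ℝ[X] := G.map (Int.castRingHom ℝ) with hG'
  have hgK : ∀ i, |g.coeff i| ≤ C5 * (B * D) := by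
    intro i
    rw [hg, coeff_map]
    exact hPK i
  have hGK : ∀ i, |G'.coeff i| ≤ C3 * D := by
    intro i
    rw [hG', coeff_map]
    exact hG2 i
  have hgn : g.natDegree ≤ m + 2 := natDegree_map_le.trans hPn
  have hGn : G'.natDegree ≤ m + 2 := natDegree_map_le.trans hG1
  have hgζ : g.eval ζ = aeval ζ G + B * D * ζ + s := by
    rw [hg, ← aeval_eq, hPdef, map_add, map_add, map_mul, aeval_C_int, aeval_C_int, aeval_X]
    push_cast
    rw [hD2]
  have hgder : (derivative g).eval ζ = (derivative G').eval ζ + B * D := by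
    rw [hg, hPdef, derivative_map, derivative_add, derivative_add, derivative_C,
      derivative_C_mul, derivative_X, hG', derivative_map]
    rw [← hD2]
    simp
  have hG'der : |(derivative G').eval ζ| ≤ C4 * D := by
    have h1 := abs_eval_le (derivative G') (m + 2) ((natDegree_derivative_le _).trans (by omega))
      ((m + 2 : ℕ) * (C3 * D)) A hA1 (abs_coeff_derivative_le G' (m + 2) hGn _ hGK) ζ (by linarith)
    refine h1.trans (le_of_eq ?_)
    rw [hC4]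
    ring
  have hder : B * D / 2 ≤ |(derivative g).eval ζ| := by
    have h1 : C4 * D ≤ B * D / 2 := by nlinarith
    have h2 := (abs_le.1 hG'der).1
    rw [hgder]
    refine le_trans ?_ (le_abs_self _)
    linarith
  have hPpos : 0 < B * D := by positivity
  obtain ⟨β, hβ1, hβ2⟩ := exists_root g (m + 2) hgn _ A hA1 hgK ζ hA (B * D / 2)
    (4 * (1 / (B : ℝ) ^ (2 * e + m)) * (1 / (B * D))) (by positivity) hder
    (by
      rw [hgζ]
      have h1 : B * D / 2 * (4 * (1 / (B : ℝ) ^ (2 * e + m)) * (1 / (B * D))) =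
        2 * (1 / (B : ℝ) ^ (2 * e + m)) := by field_simp; ring
      rw [h1]
      linarith)
    (by
      have h1 : 1 / (B : ℝ) ^ (2 * e + m) ≤ 1 := by
        rw [div_le_one (by positivity)]
        exact one_le_pow₀ hB1'
      have h2 : 1 / (B * D) ≤ 1 / 4 := by
        apply one_div_le_one_div_of_le (by norm_num)
        nlinarith
      have h3 : 0 ≤ 1 / (B : ℝ) ^ (2 * e + m) := by positivity
      have h4 : 0 ≤ 1 / (B * D) := by positivity
      calc 4 * (1 / (B : ℝ) ^ (2 * e + m)) * (1 / (B * D)) ≤ 4 * 1 * (1 / 4) := by gcongr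
        _ = 1 := by norm_num)
    (by
      have h1 : 1 / (B : ℝ) ^ (2 * e + m) ≤ 1 := by
        rw [div_le_one (by positivity)]
        exact one_le_pow₀ hB1'
      set E : ℝ := ((m + 2 : ℕ) + 1) * ((m + 2 : ℕ) * ((m + 2 : ℕ) * C5)) * A ^ (m + 2) with hE
      have hE0 : 0 ≤ E := by positivity
      have h2 : ((m + 2 : ℕ) + 1 : ℝ) * ((m + 2 : ℕ) * ((m + 2 : ℕ) * (C5 * (B * D)))) *
          A ^ (m + 2) * (4 * (1 / (B : ℝ) ^ (2 * e + m)) * (1 / (B * D))) =
          4 * E * (1 / (B : ℝ) ^ (2 * e + m)) := by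
        rw [hE]
        field_simp
      rw [h2]
      calc 4 * E * (1 / (B : ℝ) ^ (2 * e + m)) ≤ 4 * E * 1 := by gcongr
        _ ≤ B / 4 := by linarith
        _ ≤ B * D / 2 / 2 := by nlinarith)
  have hP0 : P ≠ 0 := by
    intro h0
    have h1 : (derivative g).eval ζ = 0 := by
      rw [hg, h0]
      simp
    rw [h1, abs_zero] at hder
    linarith
  have hM : 2 * e + m = (m + w + e + 2 + 1) + 1 := by omega
  apply good_of_poly ζ htr (m + 2) (m + w + e + 2) B P hP0 hPn _ hPK β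
    (by rw [aeval_eq]; exact hβ1) _ hβ2
  · rw [hD3]
    calc (2 : ℝ) ^ (m + 2) * ((m + 2 : ℕ) + 1) * (C5 * (B * D))
        = ((2 : ℝ) ^ (m + 2) * ((m + 2 : ℕ) + 1) * C5) * (B * D) := by ring
      _ ≤ B * (B * D) := by
          apply mul_le_mul_of_nonneg_right _ hPpos.le
          refine le_trans ?_ hB3
          have : 0 ≤ (2 : ℝ) ^ (m + 2) * ((m + 2 : ℕ) + 1) * C5 := by positivity
          linarith
  · have h1 : (2 : ℝ) ^ (m + 2) * ((m + 2 : ℕ) + 1) * (C5 * (B * D)) *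
        (4 * (1 / (B : ℝ) ^ (2 * e + m)) * (1 / (B * D))) =
        ((2 : ℝ) ^ (m + 2) * ((m + 2 : ℕ) + 1) * C5 * 4) * (1 / (B : ℝ) ^ (2 * e + m)) := by
      field_simp
    rw [h1, hM, pow_succ (B : ℝ) (m + w + e + 2 + 1), ← one_div_mul_one_div]
    calc ((2 : ℝ) ^ (m + 2) * ((m + 2 : ℕ) + 1) * C5 * 4) *
          (1 / (B : ℝ) ^ (m + w + e + 2 + 1) * (1 / B))
        ≤ B * (1 / (B : ℝ) ^ (m + w + e + 2 + 1) * (1 / B)) := by gcongr
      _ = 1 / (B : ℝ) ^ (m + w + e + 2 + 1) := by field_simp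


/-- For a transcendental non-Liouville number, all large `B` are good. -/
theorem exists_good (ζ : ℝ) (htr : Transcendental ℤ ζ) (hirr : Irrational ζ)
    (hL : ¬ Liouville ζ) :
    ∃ (n M B₀ : ℕ), 1 ≤ n ∧ 1 ≤ M ∧ ∀ B : ℕ, B₀ ≤ B → Good ζ n M B := by
  obtain ⟨w, c, hc0, hc1, hw⟩ := not_liouville ζ hirr hL
  set A : ℝ := |ζ| + 1 with hA
  have hζ0 := abs_nonneg ζ
  have hA1 : 1 ≤ A := by linarith
  set e : ℕ := w + 4 with he
  set m : ℕ := 2 * e * w + 2 * e + 4 with hm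
  set C3 : ℝ := 9 * A ^ 2 * (Cd A c m + 2) + Cd A c (2 * e + 4) with hC3
  set C4 : ℝ := ((m + 2 : ℕ) + 1) * ((m + 2 : ℕ) * C3) * A ^ (m + 2) with hC4
  set C5 : ℝ := C3 + 1 + A with hC5
  obtain ⟨B₀, hB₀⟩ := exists_nat_ge (max (8 : ℝ) (max (2 ^ (2 * w + 3) / c ^ 2)
    (max (576 * A ^ 4) (max ((2 : ℝ) ^ (m + 2) * ((m + 2 : ℕ) + 1) * (12 * A ^ 2))
    (max (2 * C4) (max (16 * (((m + 2 : ℕ) + 1) * ((m + 2 : ℕ) * ((m + 2 : ℕ) * C5)) *
      A ^ (m + 2))) ((2 : ℝ) ^ (m + 2) * ((m + 2 : ℕ) + 1) * C5 * 4)))))))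
  refine ⟨m + 2, m + w + e + 2, B₀, by omega, by omega, fun B hB => ?_⟩
  have hB' : (B₀ : ℝ) ≤ B := by exact_mod_cast hB
  have hmax := hB₀.trans hB'
  simp only [max_le_iff] at hmax
  obtain ⟨h1, h2, h3, h4, h5, h6, h7⟩ := hmax
  have hB1 : 1 ≤ B := by
    have : (1 : ℝ) ≤ B := by linarith
    exact_mod_cast this
  have hB1' : (1 : ℝ) ≤ B := by linarith
  obtain ⟨a, b, k, hab, ha, hb, hQ⟩ := dirichlet_quadratic ζ (B ^ e) (Nat.one_le_pow _ _ hB1)
  push_cast at ha hb hQ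
  rcases le_or_gt (|(a : ℝ) * ζ ^ 2 + b * ζ + k|) (1 / (B : ℝ) ^ (m + w + e + 2 + e + 2))
    with hcase | hcase
  · exact case_one ζ A c le_rfl hc0 htr w hw e (m + 2) (m + w + e + 2) B (by omega) (by omega)
      (by omega) hB1 h1 h2 h3 h4 a b k hab ha hb hcase
  · have hB0 : (0 : ℝ) < B := by linarith
    have hk : |(k : ℝ)| ≤ 3 * A ^ 2 * (B : ℝ) ^ e := by
      have h1 : (k : ℝ) = ((a : ℝ) * ζ ^ 2 + b * ζ + k) - (a : ℝ) * ζ ^ 2 - b * ζ := by ring
      have h2 : |(a : ℝ) * ζ ^ 2 + b * ζ + k| ≤ (B : ℝ) ^ e := by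
        refine hQ.le.trans ?_
        rw [div_le_iff₀ (by positivity), ← pow_mul, ← pow_add]
        exact one_le_pow₀ hB1'
      have h3 : |(a : ℝ) * ζ ^ 2| ≤ (B : ℝ) ^ e * A ^ 2 := by
        rw [abs_mul, abs_pow]
        gcongr
        linarith
      have h4 : |(b : ℝ) * ζ| ≤ (B : ℝ) ^ e * A := by
        rw [abs_mul]
        gcongr
        linarith
      have h5 : (0 : ℝ) < (B : ℝ) ^ e := by positivity
      have h6 : A ≤ A ^ 2 := by nlinarith
      have h7 : 1 ≤ A ^ 2 := by nlinarith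
      rw [h1]
      calc |(a : ℝ) * ζ ^ 2 + b * ζ + k - (a : ℝ) * ζ ^ 2 - b * ζ|
          ≤ |(a : ℝ) * ζ ^ 2 + b * ζ + k| + |(a : ℝ) * ζ ^ 2| + |(b : ℝ) * ζ| :=
            (abs_sub _ _).trans (add_le_add (abs_sub _ _) le_rfl)
        _ ≤ (B : ℝ) ^ e + (B : ℝ) ^ e * A ^ 2 + (B : ℝ) ^ e * A := by linarith
        _ ≤ 3 * A ^ 2 * (B : ℝ) ^ e := by nlinarith
    have h5' : (0 : ℝ) < (B : ℝ) ^ e := by positivity
    have h7' : 1 ≤ A ^ 2 := by nlinarith
    refine case_two ζ A c le_rfl hc0 htr w hw e m B he (by omega) C3 C4 C5 hC3 hC4 hC5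
      (by linarith) h5 h6 h7 (C a * X ^ 2 + C b * X + C k) (quad_natDegree a b k)
      (quad_coeff a b k _ (ha.trans (by nlinarith)) (hb.trans (by nlinarith)) hk) ?_ ?_
    · rw [quad_aeval]
      rw [show m + w + 2 * e + 4 = m + w + e + 2 + e + 2 by omega]
      exact hcase.le
    · rw [quad_aeval]
      rw [mul_comm 2 e, pow_mul]
      exact hQ.le

/-- The height used in the problem. -/
theorem sup_le_of_coeff_le (F : ℤ[X]) (K : ℝ) (hK : ∀ i, |(F.coeff i : ℝ)| ≤ K) :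
    (((Finset.range (F.natDegree + 1)).sup (fun i => (F.coeff i).natAbs) : ℕ) : ℝ) ≤ K := by
  obtain ⟨i, _, hi⟩ := Finset.exists_mem_eq_sup (Finset.range (F.natDegree + 1)) (by simp)
    (fun i => (F.coeff i).natAbs)
  rw [hi, Nat.cast_natAbs]
  push_cast
  exact hK i

theorem one_le_sup (F : ℤ[X]) (hF : F ≠ 0) :
    1 ≤ (Finset.range (F.natDegree + 1)).sup (fun i => (F.coeff i).natAbs) := by
  have h1 : 1 ≤ (F.coeff F.natDegree).natAbs := by
    have : F.coeff F.natDegree ≠ 0 := by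
      rw [coeff_natDegree]
      exact leadingCoeff_ne_zero.2 hF
    omega
  refine h1.trans ?_
  exact Finset.le_sup (f := fun i => (F.coeff i).natAbs) (by simp)

theorem coeff_le_sup (F : ℤ[X]) (i : ℕ) :
    |(F.coeff i : ℝ)| ≤
      (((Finset.range (F.natDegree + 1)).sup (fun i => (F.coeff i).natAbs) : ℕ) : ℝ) := by
  by_cases hi : i ≤ F.natDegree
  · have : (F.coeff i).natAbs ≤
        (Finset.range (F.natDegree + 1)).sup (fun i => (F.coeff i).natAbs) :=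
      Finset.le_sup (f := fun i => (F.coeff i).natAbs) (by simpa [Nat.lt_succ_iff] using hi)
    have h2 : |(F.coeff i : ℝ)| = ((F.coeff i).natAbs : ℝ) := by
      rw [Nat.cast_natAbs]
      push_cast
      rfl
    rw [h2]
    exact_mod_cast this
  · rw [coeff_eq_zero_of_natDegree_lt (by omega)]
    simp

/-- The exponent set of the problem. -/
def expSet (ζ : ℝ) (n : ℕ) : Set ℝ :=
  {w : ℝ | ∃ H₀ : ℝ, ∀ H : ℝ, H₀ ≤ H →
              ∃ α : ℝ, ∃ P : Polynomial ℤ,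
                Irreducible P ∧ P.natDegree ≤ n ∧ Polynomial.aeval α P = 0 ∧
                (((Finset.range (P.natDegree + 1)).sup (fun i => (P.coeff i).natAbs) : ℕ) : ℝ) ≤ H ∧
                0 < |ζ - α| ∧
                |ζ - α| ≤
                  ((((Finset.range (P.natDegree + 1)).sup (fun i => (P.coeff i).natAbs) : ℕ) : ℝ))⁻¹
                    * H ^ (-w)}

/-- From a real coefficient bound to the inequality of the problem. -/
theorem mem_of_bound (ζ α H w K : ℝ) (F : ℤ[X]) (hF : Irreducible F)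
    (hK : ∀ i, |(F.coeff i : ℝ)| ≤ K) (hα : K * |ζ - α| ≤ H ^ (-w)) :
    |ζ - α| ≤ ((((Finset.range (F.natDegree + 1)).sup (fun i => (F.coeff i).natAbs) : ℕ) : ℝ))⁻¹
                    * H ^ (-w) := by
  have h1 := one_le_sup F hF.ne_zero
  have h2 := sup_le_of_coeff_le F K hK
  set s := (Finset.range (F.natDegree + 1)).sup (fun i => (F.coeff i).natAbs)
  have h3 : (0 : ℝ) < s := by exact_mod_cast h1
  rw [inv_mul_eq_div, le_div_iff₀ h3, mul_comm]
  refine le_trans ?_ hα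
  exact mul_le_mul_of_nonneg_right h2 (abs_nonneg _)

/-- Non-Liouville numbers have some exponent larger than one. -/
theorem exists_gt_one (ζ : ℝ) (htr : Transcendental ℤ ζ) (hirr : Irrational ζ)
    (hL : ¬ Liouville ζ) : ∃ n : ℕ, 1 ≤ n ∧ ∃ w : ℝ, 1 < w ∧ w ∈ expSet ζ n := by
  obtain ⟨n, M, B₀, hn, hM, hgood⟩ := exists_good ζ htr hirr hL
  have hM0 : (0 : ℝ) < M := by exact_mod_cast hM
  refine ⟨n, hn, 1 + 1 / (2 * M), by linarith [show (0 : ℝ) < 1 / (2 * M) by positivity], ?_⟩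
  set T : ℕ := max B₀ (2 ^ (2 * M + 1)) with hT
  refine ⟨(T : ℝ) ^ M, fun H hH => ?_⟩
  have hT1 : 1 ≤ T := le_trans (Nat.one_le_two_pow) (le_max_right _ _)
  have hT1' : (1 : ℝ) ≤ T := by exact_mod_cast hT1
  have hH1 : 1 ≤ H := le_trans (one_le_pow₀ hT1') hH
  have hH0 : 0 < H := by linarith
  -- choose B
  set x : ℝ := H ^ (1 / (M : ℝ)) with hx
  have hx0 : 0 ≤ x := Real.rpow_nonneg hH0.le _
  have hxM : x ^ M = H := by
    rw [hx, ← Real.rpow_natCast, ← Real.rpow_mul hH0.le, one_div_mul_cancel hM0.ne', Real.rpow_one]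
  set B : ℕ := ⌊x⌋₊ with hB
  have hBx : (B : ℝ) ≤ x := Nat.floor_le hx0
  have hxB : x < B + 1 := Nat.lt_floor_add_one x
  have hTx : (T : ℝ) ≤ x := by
    by_contra hcon
    push Not at hcon
    have : x ^ M < (T : ℝ) ^ M := pow_lt_pow_left₀ hcon hx0 (by omega)
    rw [hxM] at this
    linarith
  have hTB : T ≤ B := Nat.le_floor hTx
  have hB1 : (1 : ℝ) ≤ B := by exact_mod_cast hT1.trans hTB
  have hB0 : (0 : ℝ) < B := by linarith
  have hBH : (B : ℝ) ^ M ≤ H := by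
    rw [← hxM]
    exact pow_le_pow_left₀ hB0.le hBx M
  have hHB : H ≤ (2 * (B : ℝ)) ^ M := by
    rw [← hxM]
    exact pow_le_pow_left₀ hx0 (by linarith) M
  have hB2 : (2 : ℝ) ^ (2 * M + 1) ≤ B := by
    have : 2 ^ (2 * M + 1) ≤ B := (le_max_right _ _).trans hTB
    exact_mod_cast this
  obtain ⟨α, F, K, hF1, hF2, hF3, hF4, hF5, hF6, hF7⟩ := hgood B ((le_max_left _ _).trans hTB)
  refine ⟨α, F, hF1, hF2, hF3, ?_, hF6, ?_⟩
  · exact (sup_le_of_coeff_le F K hF4).trans (hF5.trans hBH)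
  · apply mem_of_bound ζ α H _ K F hF1 hF4
    refine hF7.trans ?_
    rw [Real.rpow_neg hH0.le, one_div]
    apply inv_anti₀ (Real.rpow_pos_of_pos hH0 _)
    -- H ^ (1 + 1/(2M)) ≤ B ^ (M+1)
    have h1 : H ^ (1 + 1 / (2 * (M : ℝ))) ≤ ((2 * (B : ℝ)) ^ M) ^ (1 + 1 / (2 * (M : ℝ))) :=
      Real.rpow_le_rpow hH0.le hHB (by positivity)
    refine h1.trans ?_
    have h2 : ((2 * (B : ℝ)) ^ M) ^ (1 + 1 / (2 * (M : ℝ))) =
        (2 * (B : ℝ)) ^ M * (2 * (B : ℝ)) ^ (1 / 2 : ℝ) := by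
      rw [Real.rpow_add (by positivity), Real.rpow_one]
      congr 1
      rw [← Real.rpow_natCast, ← Real.rpow_mul (by positivity)]
      congr 1
      field_simp
    rw [h2, mul_pow, Real.mul_rpow (by norm_num) hB0.le]
    have h3 : (2 : ℝ) ^ M * (2 : ℝ) ^ (1 / 2 : ℝ) ≤ (B : ℝ) ^ (1 / 2 : ℝ) := by
      have h4 : (2 : ℝ) ^ M * (2 : ℝ) ^ (1 / 2 : ℝ) = ((2 : ℝ) ^ (2 * M + 1)) ^ (1 / 2 : ℝ) := by
        rw [← Real.rpow_natCast, ← Real.rpow_natCast, ← Real.rpow_mul (by norm_num),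
          ← Real.rpow_add (by norm_num)]
        congr 1
        push_cast
        ring
      rw [h4]
      exact Real.rpow_le_rpow (by positivity) hB2 (by norm_num)
    have h5 : (B : ℝ) ^ (1 / 2 : ℝ) * (B : ℝ) ^ (1 / 2 : ℝ) = B := by
      rw [← Real.rpow_add hB0]
      norm_num
    have h6 : 0 ≤ (B : ℝ) ^ (1 / 2 : ℝ) := Real.rpow_nonneg hB0.le _
    calc (2 : ℝ) ^ M * (B : ℝ) ^ M * ((2 : ℝ) ^ (1 / 2 : ℝ) * (B : ℝ) ^ (1 / 2 : ℝ))
        = ((2 : ℝ) ^ M * (2 : ℝ) ^ (1 / 2 : ℝ)) * (B : ℝ) ^ (1 / 2 : ℝ) * (B : ℝ) ^ M := by ring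
      _ ≤ (B : ℝ) ^ (1 / 2 : ℝ) * (B : ℝ) ^ (1 / 2 : ℝ) * (B : ℝ) ^ M := by gcongr
      _ = (B : ℝ) ^ (M + 1) := by rw [h5]; ring


/-- Every exponent less than one is attained, for every degree bound `n ≥ 1` (Dirichlet). -/
theorem mem_of_lt_one (ζ : ℝ) (htr : Transcendental ℤ ζ) (n : ℕ) (hn : 1 ≤ n) (w : ℝ)
    (hw : w < 1) : w ∈ expSet ζ n := by
  set A : ℝ := |ζ| + 1 with hA
  have hζ0 := abs_nonneg ζ
  have hA1 : 1 ≤ A := by linarith
  set T : ℝ := 2 ^ n * (n + 1) * A with hT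
  have hT1 : 1 ≤ T := by
    have h1 : (1 : ℝ) ≤ 2 ^ n := one_le_pow₀ (by norm_num)
    have h2 : (1 : ℝ) ≤ (n : ℝ) + 1 := by linarith [Nat.cast_nonneg (α := ℝ) n]
    have h3 : (1 : ℝ) ≤ 2 ^ n * (n + 1) := by nlinarith
    nlinarith
  have hw1 : 0 < 1 - w := by linarith
  refine ⟨max T ((T ^ 2) ^ (1 / (1 - w))), fun H hH => ?_⟩
  have hHT : T ≤ H := (le_max_left _ _).trans hH
  have hH2 : (T ^ 2) ^ (1 / (1 - w)) ≤ H := (le_max_right _ _).trans hH
  have hT0 : 0 < T := by linarith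
  have hH0 : 0 < H := by linarith
  have hTH : T ^ 2 ≤ H ^ (1 - w) := by
    have h1 := Real.rpow_le_rpow (by positivity) hH2 hw1.le
    rw [← Real.rpow_mul (by positivity), one_div_mul_cancel hw1.ne', Real.rpow_one] at h1
    exact h1
  set N : ℕ := ⌊H / T⌋₊ with hN
  have hN1 : 1 ≤ N := by
    apply Nat.le_floor
    rw [Nat.cast_one, le_div_iff₀ hT0]
    linarith
  have hNle : (N : ℝ) ≤ H / T := Nat.floor_le (by positivity)
  have hNlt : H / T < N + 1 := Nat.lt_floor_add_one _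
  obtain ⟨p, q, hq0, hqN, hqp⟩ := Real.exists_int_int_abs_mul_sub_le ζ (show 0 < N by omega)
  have hq0' : (0 : ℝ) < q := by exact_mod_cast hq0
  have hq1' : (1 : ℝ) ≤ q := by exact_mod_cast hq0
  have hqN' : (q : ℝ) ≤ N := by exact_mod_cast hqN
  have hqp1 : |(q : ℝ) * ζ - p| ≤ 1 := by
    refine hqp.trans ?_
    rw [div_le_one (by positivity)]
    linarith [Nat.cast_nonneg (α := ℝ) N]
  have hp : |(p : ℝ)| ≤ A * q := by
    have : (p : ℝ) = q * ζ - (q * ζ - p) := by ring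
    rw [this]
    refine (abs_sub _ _).trans ?_
    rw [abs_mul, abs_of_pos hq0']
    nlinarith
  have hq : |(q : ℝ)| ≤ A * q := by
    rw [abs_of_pos hq0']
    nlinarith
  have hP0 : (C q * X - C p : ℤ[X]) ≠ 0 := by
    intro h
    have h1 : (C q * X - C p : ℤ[X]).coeff 1 = q := by
      rw [coeff_sub, coeff_C_mul, coeff_X_one, coeff_C]
      simp
    rw [h, coeff_zero] at h1
    omega
  obtain ⟨F, hF1, hF2, hF3, hF4⟩ := exists_factor (C q * X - C p) hP0 n
    ((lin_natDegree q p).trans hn) ((p : ℝ) / q) (by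
      rw [lin_aeval]
      field_simp
      ring) (A * q) (lin_coeff q p _ hq hp)
  have hK : 2 ^ n * ((n : ℝ) + 1) * (A * q) = T * q := by rw [hT]; ring
  rw [hK] at hF4
  have hdist : |ζ - (p : ℝ) / q| = |(q : ℝ) * ζ - p| / q := by
    rw [← abs_of_pos hq0', ← abs_div, abs_of_pos hq0']
    congr 1
    field_simp
  refine ⟨(p : ℝ) / q, F, hF1, hF2, hF3, ?_, ?_, ?_⟩
  · refine (sup_le_of_coeff_le F _ hF4).trans ?_
    calc T * q ≤ T * N := by gcongr
      _ ≤ T * (H / T) := by gcongr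
      _ = H := by field_simp
  · rw [abs_pos, sub_ne_zero]
    intro h
    apply htr
    refine ⟨F, hF1.ne_zero, ?_⟩
    rw [h]
    exact hF3
  · apply mem_of_bound ζ _ H w _ F hF1 hF4
    rw [hdist]
    have h1 : T * q * (|(q : ℝ) * ζ - p| / q) = T * |(q : ℝ) * ζ - p| := by field_simp
    rw [h1]
    have h2 : |(q : ℝ) * ζ - p| ≤ T / H := by
      refine hqp.trans ?_
      rw [div_le_div_iff₀ (by positivity) hH0]
      rw [div_lt_iff₀ hT0] at hNlt
      linarith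
    calc T * |(q : ℝ) * ζ - p| ≤ T * (T / H) := by gcongr
      _ = T ^ 2 / H := by ring
      _ ≤ H ^ (1 - w) / H := by gcongr
      _ = H ^ (-w) := by
        rw [Real.rpow_sub hH0, Real.rpow_one, Real.rpow_neg hH0.le]
        field_simp

/-- If an irreducible integer polynomial vanishes at a rational number, that is its only real
root. -/
theorem root_unique (P : ℤ[X]) (hP : Irreducible P) (r : ℚ) (hr : aeval (r : ℝ) P = 0) (α : ℝ)
    (hα : aeval α P = 0) : α = r := by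
  have hdeg : P.natDegree ≠ 0 := by
    intro h
    rw [eq_C_of_natDegree_eq_zero h, aeval_C_int] at hα
    have h1 : P.coeff 0 = 0 := by exact_mod_cast hα
    apply hP.ne_zero
    rw [eq_C_of_natDegree_eq_zero h, h1, C_0]
  have hprim : P.IsPrimitive := hP.isPrimitive hdeg
  have hirr := (IsPrimitive.Int.irreducible_iff_irreducible_map_cast hprim).1 hP
  have hroot : IsRoot (P.map (Int.castRingHom ℚ)) r := by
    have h1 : aeval (r : ℝ) P = ((aeval r P : ℚ) : ℝ) := by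
      have := (aeval_algebraMap_apply ℝ r P)
      simpa using this
    rw [h1] at hr
    have h2 : aeval r P = 0 := by exact_mod_cast hr
    rw [IsRoot.def, eval_map]
    simpa [aeval_def] using h2
  have hdeg1 := degree_eq_one_of_irreducible_of_root hirr hroot
  have hnat : P.natDegree = 1 := by
    have h1 : (P.map (Int.castRingHom ℚ)).natDegree = 1 := natDegree_eq_of_degree_eq_some hdeg1
    rw [natDegree_map_eq_of_injective (RingHom.injective_int (Int.castRingHom ℚ))] at h1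
    exact h1
  have hP1 : P = C (P.coeff 1) * X + C (P.coeff 0) := eq_X_add_C_of_natDegree_le_one hnat.le
  have hc1 : P.coeff 1 ≠ 0 := by
    rw [← hnat, coeff_natDegree]
    exact leadingCoeff_ne_zero.2 hP.ne_zero
  have hc1' : (P.coeff 1 : ℝ) ≠ 0 := by exact_mod_cast hc1
  rw [hP1, map_add, map_mul, aeval_C_int, aeval_C_int, aeval_X] at hα hr
  have : (P.coeff 1 : ℝ) * α = (P.coeff 1 : ℝ) * r := by linarith
  exact mul_left_cancel₀ hc1' this

/-- For Liouville numbers no exponent larger than one is attained. -/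
theorem le_one_of_liouville (ζ : ℝ) (hL : Liouville ζ) (n : ℕ) (hn : 1 ≤ n) (w : ℝ)
    (hw : w ∈ expSet ζ n) : w ≤ 1 := by
  by_contra hcon
  push Not at hcon
  obtain ⟨H₀, hH₀⟩ := hw
  set A : ℝ := |ζ| + 1 with hA
  have hζ0 := abs_nonneg ζ
  have hA1 : 1 ≤ A := by linarith
  have hn1 : (1 : ℝ) ≤ n := by exact_mod_cast hn
  set CL : ℝ := (n + 1) * n * A ^ n with hCL
  have hAn : 1 ≤ A ^ n := one_le_pow₀ hA1
  have hCL1 : 1 ≤ CL := by
    have : (1 : ℝ) ≤ (n + 1) * n := by nlinarith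
    nlinarith
  obtain ⟨k, hk⟩ := exists_nat_ge (1 / (w - 1))
  have hw1 : 0 < w - 1 := by linarith
  have hk1 : 1 ≤ k * (w - 1) := by
    rw [div_le_iff₀ hw1] at hk
    exact hk
  have hk0 : 1 ≤ k := by
    rcases Nat.eq_zero_or_pos k with h | h
    · rw [h] at hk1
      norm_num at hk1
    · exact h
  obtain ⟨L, hL1⟩ := pow_unbounded_of_one_lt (2 * CL) (by norm_num : (1 : ℝ) < 2)
  obtain ⟨L', hL1'⟩ := pow_unbounded_of_one_lt H₀ (by norm_num : (1 : ℝ) < 2)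
  set M : ℕ := (L + n) * (k + 1) + L' with hM
  obtain ⟨a, b, hb, hne, hlt⟩ := hL M
  have hb0 : (0 : ℝ) < b := by exact_mod_cast (by omega : (0 : ℤ) < b)
  have hb2 : (2 : ℝ) ≤ b := by exact_mod_cast hb
  have hb1 : (1 : ℝ) ≤ b := by linarith
  set δ : ℝ := |ζ - a / b| with hδ
  have hδ0 : 0 < δ := by
    rw [hδ, abs_pos, sub_ne_zero]
    exact hne
  set E : ℝ := 2 * CL * (b : ℝ) ^ n with hE
  have hE0 : 0 < E := by positivity
  have hE1 : 1 ≤ E := by
    have : (1 : ℝ) ≤ (b : ℝ) ^ n := one_le_pow₀ hb1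
    nlinarith
  have hEb : E ≤ (b : ℝ) ^ (L + n) := by
    rw [pow_add, hE]
    apply mul_le_mul_of_nonneg_right _ (by positivity)
    exact hL1.le.trans (pow_le_pow_left₀ (by norm_num) hb2 L)
  set H : ℝ := 1 / (E * δ) with hH
  have hH0 : 0 < H := by positivity
  -- b ^ M < E * H
  have hbM : (b : ℝ) ^ M < E * H := by
    have h1 : E * H = 1 / δ := by rw [hH]; field_simp
    rw [h1, lt_div_iff₀ hδ0]
    rw [lt_div_iff₀ (by positivity)] at hlt
    linarith
  have hHbig : (b : ℝ) ^ L' ≤ H := by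
    by_contra h
    push Not at h
    have h1 : E * H ≤ (b : ℝ) ^ M := by
      calc E * H ≤ (b : ℝ) ^ (L + n) * (b : ℝ) ^ L' := by
            apply mul_le_mul hEb h.le hH0.le (by positivity)
        _ = (b : ℝ) ^ (L + n + L') := by rw [← pow_add]
        _ ≤ (b : ℝ) ^ M := by
            apply pow_le_pow_right₀ hb1
            rw [hM]
            nlinarith
    linarith
  have hH1 : 1 ≤ H := (one_le_pow₀ hb1).trans hHbig
  have hHH₀ : H₀ ≤ H := by
    refine hL1'.le.trans (le_trans ?_ hHbig)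
    exact pow_le_pow_left₀ (by norm_num) hb2 L'
  obtain ⟨α, P, hP1, hP2, hP3, hP4, hP5, hP6⟩ := hH₀ H hHH₀
  set h : ℕ := (Finset.range (P.natDegree + 1)).sup (fun i => (P.coeff i).natAbs) with hh
  have hh1 : (1 : ℝ) ≤ h := by exact_mod_cast one_le_sup P hP1.ne_zero
  have hHw0 : 0 < H ^ (-w) := Real.rpow_pos_of_pos hH0 _
  have hαle : |ζ - α| ≤ H ^ (-w) := by
    refine hP6.trans ?_
    apply mul_le_of_le_one_left hHw0.le
    exact inv_le_one_of_one_le₀ hh1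
  have hEEk : E ^ (k + 1) ≤ (b : ℝ) ^ M := by
    calc E ^ (k + 1) ≤ ((b : ℝ) ^ (L + n)) ^ (k + 1) := pow_le_pow_left₀ hE0.le hEb _
      _ = (b : ℝ) ^ ((L + n) * (k + 1)) := by rw [← pow_mul]
      _ ≤ (b : ℝ) ^ M := pow_le_pow_right₀ hb1 (by omega)
  -- it suffices to bound H by E ^ k
  have hfin : ¬ H ≤ E ^ k := by
    intro hle
    have h1 : E * H ≤ E ^ (k + 1) := by
      rw [pow_succ, mul_comm]
      exact mul_le_mul_of_nonneg_right hle hE0.le
    linarith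
  apply hfin
  have hHw : H ^ (-w) = 1 / H ^ w := by rw [Real.rpow_neg hH0.le, one_div]
  have hHwpos : 0 < H ^ w := Real.rpow_pos_of_pos hH0 _
  by_cases hPab : aeval ((a : ℝ) / b) P = 0
  · -- α = a / b
    have hα : α = ((a / b : ℚ) : ℝ) := root_unique P hP1 (a / b) (by push_cast; exact hPab) α hP3
    push_cast at hα
    rw [hα, ← hδ] at hαle
    have h1 : H ^ (w - 1) ≤ E := by
      rw [Real.rpow_sub hH0, Real.rpow_one, div_le_iff₀ hH0]
      have h2 : E * H = 1 / δ := by rw [hH]; field_simp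
      rw [h2, le_div_iff₀ hδ0]
      rw [hHw, le_div_iff₀ hHwpos] at hαle
      linarith
    calc H = H ^ (1 : ℝ) := (Real.rpow_one H).symm
      _ ≤ H ^ ((w - 1) * k) := Real.rpow_le_rpow_of_exponent_le hH1 (by linarith)
      _ = (H ^ (w - 1)) ^ k := by rw [Real.rpow_mul hH0.le, Real.rpow_natCast]
      _ ≤ E ^ k := pow_le_pow_left₀ (Real.rpow_nonneg hH0.le _) h1 k
  · -- Liouville's inequality
    set g : ℝ[X] := P.map (Int.castRingHom ℝ) with hg
    have hbint : (0 : ℤ) < b := by omega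
    have h1 : (1 : ℝ) ≤ (b : ℝ) ^ P.natDegree * |aeval ((a : ℝ) / b) P| := by
      have := one_le_pow_mul_abs_eval_div (K := ℝ) (f := P) (a := a) hbint (by
        rw [aeval_eq] at hPab
        exact hPab)
      rw [aeval_eq]
      exact this
    have h2 : (1 : ℝ) ≤ (b : ℝ) ^ n * |aeval ((a : ℝ) / b) P| := by
      refine h1.trans ?_
      apply mul_le_mul_of_nonneg_right _ (abs_nonneg _)
      exact pow_le_pow_right₀ hb1 hP2
    have hgn : g.natDegree ≤ n := natDegree_map_le.trans hP2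
    have hgK : ∀ i, |g.coeff i| ≤ h := by
      intro i
      rw [hg, coeff_map]
      exact coeff_le_sup P i
    have hδ1 : δ ≤ 1 := by
      refine hlt.le.trans ?_
      rw [div_le_one (by positivity)]
      exact one_le_pow₀ hb1
    have hHw1 : H ^ (-w) ≤ 1 := Real.rpow_le_one_of_one_le_of_nonpos hH1 (by linarith)
    have hab : |(a : ℝ) / b| ≤ A := by
      have : (a : ℝ) / b = ζ - (ζ - a / b) := by ring
      rw [this]
      refine (abs_sub _ _).trans ?_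
      rw [hA]
      linarith
    have hαA : |α| ≤ A := by
      have : α = ζ - (ζ - α) := by ring
      rw [this]
      refine (abs_sub _ _).trans ?_
      rw [hA]
      linarith
    have h3 := abs_eval_sub_le g n hgn h A hA1 hgK ((a : ℝ) / b) α hab hαA
    have h4 : g.eval α = 0 := by rw [hg, ← aeval_eq]; exact hP3
    have h5 : g.eval ((a : ℝ) / b) = aeval ((a : ℝ) / b) P := by rw [hg, ← aeval_eq]
    rw [h4, sub_zero, h5] at h3
    have h6 : |(a : ℝ) / b - α| ≤ δ + |ζ - α| := by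
      have : (a : ℝ) / b - α = -(ζ - a / b) + (ζ - α) := by ring
      rw [this]
      refine (abs_add_le _ _).trans ?_
      rw [abs_neg]
    have h7 : (h : ℝ) * |ζ - α| ≤ H ^ (-w) := by
      have h8 : (0 : ℝ) < h := by linarith
      calc (h : ℝ) * |ζ - α| ≤ h * ((h : ℝ)⁻¹ * H ^ (-w)) := by gcongr
        _ = H ^ (-w) := by field_simp
    have h8 : |aeval ((a : ℝ) / b) P| ≤ CL * (H * δ + H ^ (-w)) := by
      calc |aeval ((a : ℝ) / b) P| ≤ (n + 1) * (n * h) * A ^ n * |(a : ℝ) / b - α| := h3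
        _ = CL * (h * |(a : ℝ) / b - α|) := by rw [hCL]; ring
        _ ≤ CL * (h * (δ + |ζ - α|)) := by gcongr
        _ = CL * (h * δ + h * |ζ - α|) := by ring
        _ ≤ CL * (H * δ + H ^ (-w)) := by gcongr
    have h9 : (b : ℝ) ^ n * (CL * (H * δ)) = 1 / 2 := by
      rw [hH, hE]
      field_simp
    have h10 : 1 / 2 ≤ (b : ℝ) ^ n * (CL * H ^ (-w)) := by
      have : (b : ℝ) ^ n * |aeval ((a : ℝ) / b) P| ≤ (b : ℝ) ^ n * (CL * (H * δ + H ^ (-w))) := by
        gcongr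
      have h11 : (b : ℝ) ^ n * (CL * (H * δ + H ^ (-w))) =
        (b : ℝ) ^ n * (CL * (H * δ)) + (b : ℝ) ^ n * (CL * H ^ (-w)) := by ring
      rw [h11, h9] at this
      linarith
    have h12 : H ^ w ≤ E := by
      rw [hHw] at h10
      have h13 : (b : ℝ) ^ n * (CL * (1 / H ^ w)) = (CL * (b : ℝ) ^ n) / H ^ w := by ring
      rw [h13, le_div_iff₀ hHwpos] at h10
      rw [hE]
      linarith
    calc H = H ^ (1 : ℝ) := (Real.rpow_one H).symm
      _ ≤ H ^ w := Real.rpow_le_rpow_of_exponent_le hH1 hcon.le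
      _ ≤ E := h12
      _ = E ^ 1 := (pow_one E).symm
      _ ≤ E ^ k := pow_le_pow_right₀ hE1 hk0

/-- The main theorem. -/
theorem main (ζ : ℝ) (htr : Transcendental ℤ ζ) :
    Liouville ζ ↔ ∀ n : ℕ, 1 ≤ n → IsLUB (expSet ζ n) 1 := by
  have hirr : Irrational ζ := by
    rintro ⟨r, hr⟩
    apply htr
    have hden : (r.den : ℝ) ≠ 0 := by exact_mod_cast r.den_nz
    refine ⟨C (r.den : ℤ) * X - C r.num, ?_, ?_⟩
    · intro h
      have h1 : (C (r.den : ℤ) * X - C r.num : ℤ[X]).coeff 1 = r.den := by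
        rw [coeff_sub, coeff_C_mul, coeff_X_one, coeff_C]
        simp
      rw [h, coeff_zero] at h1
      exact r.den_nz (by exact_mod_cast h1.symm)
    · rw [lin_aeval, ← hr]
      have h2 : (r : ℝ) = r.num / r.den := by exact_mod_cast (Rat.num_div_den r).symm
      rw [h2]
      push_cast
      field_simp
      ring
  constructor
  · intro hL n hn
    constructor
    · intro w hw
      exact le_one_of_liouville ζ hL n hn w hw
    · intro u hu
      apply le_of_forall_lt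
      intro w hw
      by_contra hcon
      push Not at hcon
      have h1 : (w + 1) / 2 ∈ expSet ζ n := mem_of_lt_one ζ htr n hn _ (by linarith)
      have h2 := hu h1
      linarith
  · intro h
    by_contra hL
    obtain ⟨n, hn, w, hw1, hw2⟩ := exists_gt_one ζ htr hirr hL
    have := (h n hn).1 hw2
    linarith

end Pool.Agent.Lib.MP_8ce656_nt
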